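import Pool.Agent.Run7.h529.Family

/-!
The asymptotic form of the bound.
-/

set_option autoImplicit false

namespace Run7.h529

open Finset Filter Topology

theorem small_terms (δ η : ℝ) (hδ : 0 < δ) (hη : 0 < η) :
    ∃ n₀ : ℕ, ∀ n : ℕ, n₀ ≤ n → 0 < Real.logb 2 n ∧ 1 < n ∧
      (n : ℝ) ^ (-δ) + 2 / Real.logb 2 n + 2 * Real.logb 2 n / n ≤ η := by
  have hL : Tendsto (fun n : ℕ => Real.logb 2 n) atTop atTop :=
    (Real.tendsto_logb_atTop (by norm_num)).comp tendsto_natCast_atTop_atTop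
  have h1 : Tendsto (fun n : ℕ => (n : ℝ) ^ (-δ)) atTop (𝓝 0) :=
    (tendsto_rpow_neg_atTop hδ).comp tendsto_natCast_atTop_atTop
  have h2 : Tendsto (fun n : ℕ => 2 / Real.logb 2 n) atTop (𝓝 0) := hL.const_div_atTop 2
  have h3 : Tendsto (fun n : ℕ => 2 * Real.logb 2 n / n) atTop (𝓝 0) := by
    have h4 : Tendsto (fun x : ℝ => Real.log x / x) atTop (𝓝 0) := by
      have := Real.isLittleO_log_id_atTop.tendsto_div_nhds_zero
      simpa using this
    have h5 := (h4.comp tendsto_natCast_atTop_atTop (α := ℕ)).const_mul (2 / Real.log 2)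
    rw [mul_zero] at h5
    refine h5.congr fun n => ?_
    simp only [Function.comp_apply, Real.logb]
    ring
  have h6 := (h1.add h2).add h3
  rw [add_zero, add_zero] at h6
  have h7 := (h6.eventually_le_const hη).and ((hL.eventually_gt_atTop 0).and
    (eventually_gt_atTop 1))
  obtain ⟨n₀, h⟩ := eventually_atTop.1 h7
  exact ⟨n₀, fun n hn => ⟨(h n hn).2.1, (h n hn).2.2, (h n hn).1⟩⟩

/-- The asymptotic form of the bound. -/
theorem certificate_bound (c : Bool) (ε : ℝ) (hε : 0 < ε) : ∃ δ : ℝ, 0 < δ ∧ ∃ n₀ : ℕ,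
    ∀ n t : ℕ, n₀ ≤ n → 1 ≤ t → (t : ℝ) ≤ (n : ℝ) ^ δ →
      ∀ (W : Type) [Fintype W] (P : W → SimpleGraph (Fin n) → SimpleGraph (Fin n) → Prop),
        (∀ w, LocallyRefutable (InClass c) t (P w)) →
        (∀ G H : SimpleGraph (Fin n), InClass c G → InClass c H → Nonempty (G ≃g H) →
          ∃ w, P w G H) →
        (∀ w (G H : SimpleGraph (Fin n)), InClass c G → InClass c H → P w G H →
          G.edgeSet.ncard ≠ H.edgeSet.ncard + 1 ∧ H.edgeSet.ncard ≠ G.edgeSet.ncard + 1) →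
        (n.factorial : ℝ) ^ ((2 - ε) / t) ≤ Fintype.card W := by
  set ε' : ℝ := min ε 1 with hε'
  have hε'0 : 0 < ε' := lt_min hε one_pos
  have hε'1 : ε' ≤ 1 := min_le_right _ _
  set δ : ℝ := ε' / 8 with hδ
  have hδ0 : 0 < δ := by positivity
  obtain ⟨n₀, hn₀⟩ := small_terms δ (ε' / 2) hδ0 (by positivity)
  refine ⟨δ, hδ0, n₀, ?_⟩
  intro n t hn ht htn W _ P hP hcomp hsound
  obtain ⟨hL, hn1, hsm⟩ := hn₀ n hn
  set L := Real.logb 2 n with hLdef
  have hn0 : (0 : ℝ) < n := by exact_mod_cast (by omega : 0 < n)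
  have ht0 : (0 : ℝ) < t := by exact_mod_cast ht
  have htne : (t : ℝ) ≠ 0 := ht0.ne'
  -- the main inequality between the terms
  have hnpow : (n : ℝ) ^ (1 - δ) = n * (n : ℝ) ^ (-δ) := by
    rw [sub_eq_add_neg, Real.rpow_add hn0, Real.rpow_one]
  have hmain : (n : ℝ) ^ (1 - δ) * L + 2 * n + 2 * L ^ 2 ≤ ε' / 2 * (n * L) := by
    have := mul_le_mul_of_nonneg_right hsm (by positivity : 0 ≤ (n : ℝ) * L)
    refine le_trans (le_of_eq ?_) this
    rw [hnpow]
    field_simp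
  have hpw0 : (0 : ℝ) < (n : ℝ) ^ (1 - δ) := by positivity
  have hLbig : 4 ≤ ε' * L := by
    have h1 : 2 * (n : ℝ) ≤ ε' / 2 * (n * L) := by nlinarith [sq_nonneg L, mul_pos hpw0 hL]
    have h2 : (n : ℝ) * 4 ≤ n * (ε' * L) := by linarith
    exact le_of_mul_le_mul_left h2 hn0
  set l : ℕ := ⌊(1 - 2 * δ) * L⌋₊ with hl
  have hδ1 : δ ≤ 1 / 8 := by rw [hδ]; linarith
  have hnn : 0 ≤ (1 - 2 * δ) * L := mul_nonneg (by linarith) hL.le
  have hl1 : (l : ℝ) ≤ (1 - 2 * δ) * L := Nat.floor_le hnn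
  have hl2 : (1 - 2 * δ) * L < l + 1 := Nat.lt_floor_add_one _
  have hlL : (l : ℝ) ≤ L := hl1.trans (by nlinarith)
  have hl3 : 1 ≤ l := by
    have : (1 : ℝ) < l + 1 := by
      have : (4 : ℝ) ≤ L := by nlinarith
      nlinarith
    have : (0 : ℝ) < l := by linarith
    exact_mod_cast this
  have hLn : L < n := by
    have h1 : 2 * (n : ℝ) + 2 * L ^ 2 ≤ 1 / 2 * (n * L) := by
      nlinarith [mul_pos hpw0 hL, mul_pos hn0 hL]
    nlinarith [sq_nonneg (L - n)]
  have hln : l ≤ n := by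
    have : (l : ℝ) < n := lt_of_le_of_lt hlL hLn
    exact_mod_cast this.le
  obtain ⟨m, hm⟩ := Nat.exists_eq_add_of_le' hln
  have hmR : (m : ℝ) = n - l := by
    have : (n : ℝ) = m + l := by exact_mod_cast hm
    linarith
  have e : Fin m ⊕ Fin l ≃ Fin n := finSumFinEquiv.trans (finCongr hm.symm)
  have hb := shape_bound c e t ht W P hP hcomp hsound
  have h2n : (2 : ℝ) ^ L = n := by
    rw [hLdef, Real.rpow_logb (by norm_num) (by norm_num) hn0]
  -- the number of types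
  have htypes : ((m : ℝ) + 1) ^ (2 ^ l) ≤ (2 : ℝ) ^ (L * 2 ^ l) := by
    rw [Real.rpow_mul (by norm_num), h2n]
    have h1 : (m : ℝ) + 1 ≤ n := by
      rw [hmR]
      have : (1 : ℝ) ≤ l := by exact_mod_cast hl3
      linarith
    calc ((m : ℝ) + 1) ^ (2 ^ l) ≤ (n : ℝ) ^ (2 ^ l) := pow_le_pow_left₀ (by positivity) h1 _
      _ = (n : ℝ) ^ ((2 : ℝ) ^ l) := by
        rw [← Real.rpow_natCast]
        push_cast
        rfl
  have h2l : (2 : ℝ) ^ l ≤ (n : ℝ) ^ (1 - 2 * δ) := by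
    rw [← Real.rpow_natCast, ← h2n, ← Real.rpow_mul (by norm_num)]
    apply Real.rpow_le_rpow_of_exponent_le (by norm_num)
    linarith
  have ht2l : (t : ℝ) * 2 ^ l ≤ (n : ℝ) ^ (1 - δ) := by
    calc (t : ℝ) * 2 ^ l ≤ (n : ℝ) ^ δ * (n : ℝ) ^ (1 - 2 * δ) :=
          mul_le_mul htn h2l (by positivity) (by positivity)
      _ = (n : ℝ) ^ (1 - δ) := by
        rw [← Real.rpow_add hn0]
        congr 1
        ring
  have hml : (2 - 4 * δ) * (n * L) - 2 * n - 2 * L ^ 2 ≤ 2 * (m * l) := by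
    have h1 : (n - L) * ((1 - 2 * δ) * L - 1) ≤ (m : ℝ) * l := by
      rw [hmR]
      apply mul_le_mul (by linarith) (by linarith) _ (by linarith)
      have : (4 : ℝ) ≤ L := by nlinarith
      nlinarith
    nlinarith
  have hexp : n * L * ((2 - ε') / t) + L * 2 ^ l ≤ 2 * (m * l) / t := by
    rw [le_div_iff₀ ht0]
    have h1 : (n * L * ((2 - ε') / t) + L * 2 ^ l) * t =
        (2 - ε') * (n * L) + L * (t * 2 ^ l) := by
      field_simp
    rw [h1]
    have h2 : L * (t * 2 ^ l) ≤ (n : ℝ) ^ (1 - δ) * L := by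
      rw [mul_comm L]
      exact mul_le_mul_of_nonneg_right ht2l hL.le
    have h3 : 4 * δ = ε' / 2 := by rw [hδ]; ring
    have h4 : (2 - 4 * δ) * ((n : ℝ) * L) = (2 - ε') * (n * L) + ε' / 2 * (n * L) := by
      rw [h3]; ring
    linarith
  -- the factorial
  have hfac1 : (1 : ℝ) ≤ n.factorial := by exact_mod_cast Nat.succ_le_of_lt n.factorial_pos
  have hfac : (n.factorial : ℝ) ≤ (2 : ℝ) ^ (n * L) := by
    rw [mul_comm, Real.rpow_mul (by norm_num), h2n, Real.rpow_natCast]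
    exact_mod_cast Nat.factorial_le_pow n
  have hle : (n.factorial : ℝ) ^ ((2 - ε) / t) ≤ (n.factorial : ℝ) ^ ((2 - ε') / t) := by
    apply Real.rpow_le_rpow_of_exponent_le hfac1
    apply div_le_div_of_nonneg_right _ ht0.le
    have : ε' ≤ ε := min_le_left _ _
    linarith
  refine hle.trans ?_
  have h8 : (n.factorial : ℝ) ^ ((2 - ε') / t) ≤ (2 : ℝ) ^ (n * L * ((2 - ε') / t)) := by
    rw [Real.rpow_mul (by norm_num)]
    apply Real.rpow_le_rpow (by positivity) hfac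
    apply div_nonneg (by linarith) ht0.le
  refine h8.trans ?_
  have hpos : (0 : ℝ) < (2 : ℝ) ^ (L * 2 ^ l) := by positivity
  have h9 : (2 : ℝ) ^ (n * L * ((2 - ε') / t)) * (2 : ℝ) ^ (L * 2 ^ l) ≤
      Fintype.card W * (2 : ℝ) ^ (L * 2 ^ l) := by
    rw [← Real.rpow_add (by norm_num)]
    calc (2 : ℝ) ^ (n * L * ((2 - ε') / t) + L * 2 ^ l)
        ≤ (2 : ℝ) ^ ((2 * (m * l) : ℝ) / t) :=
          Real.rpow_le_rpow_of_exponent_le (by norm_num) hexp
      _ ≤ Fintype.card W * ((m : ℝ) + 1) ^ (2 ^ l) := hb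
      _ ≤ Fintype.card W * (2 : ℝ) ^ (L * 2 ^ l) :=
          mul_le_mul_of_nonneg_left htypes (by positivity)
  exact le_of_mul_le_mul_right h9 hpos

/-- The bijections are certificates whose failures are explained by two bits. -/
theorem bijections_certify (n : ℕ) (σ : Equiv.Perm (Fin n)) :
    LocallyRefutable (fun _ : SimpleGraph (Fin n) => True) 2
      fun G H => ∀ u v, G.Adj u v ↔ H.Adj (σ u) (σ v) := by
  intro G H _ _ h
  push Not at h
  obtain ⟨u, v, h⟩ := h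
  refine ⟨{s(u, v)}, {s(σ u, σ v)}, by simp, ?_⟩
  intro G' H' _ _ h1 h2 h3
  have h4 := h1 _ (mem_singleton_self _)
  have h5 := h2 _ (mem_singleton_self _)
  rw [SimpleGraph.mem_edgeSet, SimpleGraph.mem_edgeSet] at h4 h5
  have h6 := h3 u v
  rw [h4, h5] at h6
  rcases h with ⟨ha, hb⟩ | ⟨ha, hb⟩
  · exact hb (h6.1 ha)
  · exact ha (h6.2 hb)

end Run7.h529
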