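import Mathlib

/-!
Certificates whose rejections are explained by few adjacency bits.
-/

set_option autoImplicit false

namespace Run7.h529

/-- `P` is a property of pairs of graphs on `n` vertices in the class `𝒞`, every failure of which is
explained by at most `t` adjacency bits: if `G`, `H` do not have the property then there are a set
`S` of pairs of vertices of the first graph and a set `S'` of pairs of vertices of the second graph,
at most `t` pairs together, such that no graphs `G'`, `H'` in the class which agree with `G` on `S`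
and with `H` on `S'` have the property. -/
def LocallyRefutable {n : ℕ} (𝒞 : SimpleGraph (Fin n) → Prop) (t : ℕ)
    (P : SimpleGraph (Fin n) → SimpleGraph (Fin n) → Prop) : Prop :=
  ∀ G H, 𝒞 G → 𝒞 H → ¬ P G H → ∃ S S' : Finset (Sym2 (Fin n)), S.card + S'.card ≤ t ∧
    ∀ G' H' : SimpleGraph (Fin n), 𝒞 G' → 𝒞 H' → (∀ e ∈ S, e ∈ G'.edgeSet ↔ e ∈ G.edgeSet) →
      (∀ e ∈ S', e ∈ H'.edgeSet ↔ e ∈ H.edgeSet) → ¬ P G' H'

/-- The class of the bipartite graphs (`c = false`) or of the split graphs (`c = true`): the
vertices not in some set `A` are pairwise non-adjacent, and the vertices in `A` are pairwise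
non-adjacent (`c = false`) or pairwise adjacent (`c = true`). -/
def InClass (c : Bool) {n : ℕ} (G : SimpleGraph (Fin n)) : Prop :=
  ∃ A : Set (Fin n), (∀ u ∈ A, ∀ v ∈ A, u ≠ v → (G.Adj u v ↔ c = true)) ∧
    ∀ u, u ∉ A → ∀ v, v ∉ A → ¬ G.Adj u v

end Run7.h529
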