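import Pool.Agent.Run7.h529.Tri

/-!
# The pairs of vertices of a graph replaced by two gadgets
-/

set_option autoImplicit false

namespace Run7.h529

open Classical in
/-- The graph got from the graph `G` and the gadgets `A`, `B`: take the triangular graph on the
pairs of vertices of `G` and substitute `A` for the adjacent pairs and `B` for the others. -/
noncomputable def comp {V F : Type} (A B : SimpleGraph F) (G : SimpleGraph V) :
    SimpleGraph (Pr V × F) :=
  sub (tri V) fun e => if e.1 ∈ G.edgeSet then A else B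

theorem comp_iso_iff {V V' F : Type} [Finite V] [Finite V'] [Finite F] [Nonempty F]
    (hV : 5 ≤ Nat.card V) (hV' : 5 ≤ Nat.card V') {A B : SimpleGraph F} (hAB : IsEmpty (A ≃g B))
    (G : SimpleGraph V) (H : SimpleGraph V') :
    Nonempty (comp A B G ≃g comp A B H) ↔ Nonempty (G ≃g H) := by
  classical
  constructor
  · rintro ⟨φ⟩
    obtain ⟨ψ, hψ⟩ := sub_iso (tri_spread hV) (tri_spread hV') φ
    obtain ⟨σ, hσ⟩ := tri_iso hV hV' ψ
    refine ⟨⟨σ, ?_⟩⟩
    intro a b
    by_cases hab : a = b
    · subst hab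
      exact ⟨fun h => absurd h (H.loopless.irrefl _), fun h => absurd h (G.loopless.irrefl _)⟩
    · have h1 := hψ (mkp a b hab)
      rw [hσ a b hab] at h1
      have e1 : (mkp a b hab).1 ∈ G.edgeSet ↔ G.Adj a b := Iff.rfl
      have e2 : (mkp (σ a) (σ b) (fun h' => hab (σ.injective h'))).1 ∈ H.edgeSet ↔
        H.Adj (σ a) (σ b) := Iff.rfl
      simp only [e1, e2] at h1
      by_cases h2 : H.Adj (σ a) (σ b)
      · by_cases h3 : G.Adj a b
        · exact iff_of_true h2 h3
        · simp only [h2, h3, if_true, if_false] at h1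
          exact (hAB.false h1.some.symm).elim
      · by_cases h3 : G.Adj a b
        · simp only [h2, h3, if_true, if_false] at h1
          exact (hAB.false h1.some).elim
        · exact iff_of_false h2 h3
  · rintro ⟨φ⟩
    obtain ⟨ψ, hψ⟩ := triMap φ.toEquiv
    refine iso_sub ψ fun e => ?_
    obtain ⟨a, b, hab, rfl⟩ := pr_cases e
    have e1 : (ψ (mkp a b hab)).1 = s(φ a, φ b) := hψ _
    rw [e1]
    have e2 : s(φ a, φ b) ∈ H.edgeSet ↔ H.Adj (φ a) (φ b) := Iff.rfl
    have e3 : (mkp a b hab).1 ∈ G.edgeSet ↔ G.Adj a b := Iff.rfl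
    simp only [e2, e3, φ.map_adj_iff]
    exact ⟨RelIso.refl _⟩

end Run7.h529
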