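import Pool.Agent.H38.NP.Graphs
import Pool.Agent.Run7.h529.Comp

/-!
# The graphs `comp` are computed in polynomial time
-/

set_option autoImplicit false

namespace Run7.h529

open Pool.Agent.H38.NP

/-- the pairs `a < b < n` -/
def prs (n : ℕ) : List (ℕ × ℕ) := (List.range n ×ˢ List.range n).filter fun p => decide (p.1 < p.2)

theorem mem_prs {n : ℕ} {p : ℕ × ℕ} : p ∈ prs n ↔ p.1 < p.2 ∧ p.2 < n := by
  unfold prs
  rw [List.mem_filter, List.mem_product, List.mem_range, List.mem_range, decide_eq_true_eq]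
  constructor
  · rintro ⟨⟨h1, h2⟩, h3⟩
    exact ⟨h3, h2⟩
  · rintro ⟨h1, h2⟩
    exact ⟨⟨h1.trans h2, h2⟩, h1⟩

theorem nodup_prs (n : ℕ) : (prs n).Nodup :=
  (List.nodup_range.product List.nodup_range).filter _

/-- the adjacency bits of the graph given by `n` and `E` -/
def gbit (n : ℕ) (E : List (ℕ × ℕ)) (a b : ℕ) : Bool :=
  decide (a < n) && decide (b < n) && (decide ((a, b) ∈ E) || decide ((b, a) ∈ E))

/-- the graph given by `n` and `E` with five more isolated vertices -/
def padG (n : ℕ) (E : List (ℕ × ℕ)) : SimpleGraph (Fin (n + 5)) where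
  Adj u v := u ≠ v ∧ gbit n E u v = true
  symm := ⟨fun u v h => ⟨h.1.symm, by
    have := h.2
    unfold gbit at this ⊢
    simp only [Bool.and_eq_true, Bool.or_eq_true, decide_eq_true_eq] at this ⊢
    tauto⟩⟩
  loopless := ⟨fun _ h => h.1 rfl⟩

/-- the `i`-th pair as a pair of vertices -/
def slotFun (N : ℕ) (i : Fin (prs N).length) : Pr (Fin N) :=
  mkp ⟨((prs N)[i]).1, ((mem_prs.1 (List.getElem_mem i.2)).1.trans (mem_prs.1 (List.getElem_mem i.2)).2)⟩
    ⟨((prs N)[i]).2, (mem_prs.1 (List.getElem_mem i.2)).2⟩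
    (fun h => (mem_prs.1 (List.getElem_mem i.2)).1.ne (congrArg Fin.val h))

theorem slotFun_bij (N : ℕ) : Function.Bijective (slotFun N) := by
  constructor
  · intro i j h
    have h1 := congrArg Subtype.val h
    have hi := (mem_prs.1 (List.getElem_mem i.2)).1
    have hj := (mem_prs.1 (List.getElem_mem j.2)).1
    have h2 := Sym2.eq_iff.1 h1
    simp only [Fin.mk.injEq] at h2
    have h3 : (prs N)[i] = (prs N)[j] := by
      rcases h2 with ⟨h3, h4⟩ | ⟨h3, h4⟩
      · exact Prod.ext h3 h4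
      · exfalso
        change ((prs N)[i.val]).1 = ((prs N)[j.val]).2 at h3
        change ((prs N)[i.val]).2 = ((prs N)[j.val]).1 at h4
        omega
    exact Fin.ext ((List.Nodup.getElem_inj_iff (nodup_prs N)).1 h3)
  · intro e
    have key : ∀ (a b : Fin N) (hab : a < b), ∃ i, slotFun N i = mkp a b hab.ne := by
      intro a b hab
      have h1 : (a.val, b.val) ∈ prs N := mem_prs.2 ⟨hab, b.2⟩
      obtain ⟨i, hi, h2⟩ := List.getElem_of_mem h1
      refine ⟨⟨i, hi⟩, ?_⟩
      apply Subtype.ext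
      apply Sym2.eq_iff.2
      left
      constructor
      · exact Fin.ext (congrArg Prod.fst h2)
      · exact Fin.ext (congrArg Prod.snd h2)
    obtain ⟨a, b, hab, rfl⟩ := pr_cases e
    rcases lt_or_gt_of_ne hab with h | h
    · exact key a b h
    · obtain ⟨i, hi⟩ := key b a h
      exact ⟨i, hi.trans (Subtype.ext Sym2.eq_swap)⟩

/-- a graph on `Fin m` as a list of pairs -/
def adjList {m : ℕ} (A : SimpleGraph (Fin m)) [DecidableRel A.Adj] : List (ℕ × ℕ) :=
  ((List.finRange m ×ˢ List.finRange m).filter fun p => decide (A.Adj p.1 p.2)).map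
    fun p => (p.1.val, p.2.val)

theorem mem_adjList {m : ℕ} (A : SimpleGraph (Fin m)) [DecidableRel A.Adj] (p q : Fin m) :
    (p.val, q.val) ∈ adjList A ↔ A.Adj p q := by
  unfold adjList
  rw [List.mem_map]
  constructor
  · rintro ⟨⟨a, b⟩, h1, h2⟩
    rw [List.mem_filter] at h1
    have h3 := (Prod.mk.inj h2)
    have h4 : a = p := Fin.ext h3.1
    have h5 : b = q := Fin.ext h3.2
    subst h4; subst h5
    exact of_decide_eq_true h1.2
  · intro h
    exact ⟨(p, q), List.mem_filter.2 ⟨List.mem_product.2 ⟨List.mem_finRange _, List.mem_finRange _⟩,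
      decide_eq_true h⟩, rfl⟩

/-- the adjacency bits of the encoded graph -/
def adjN (m : ℕ) (LA LB : List (ℕ × ℕ)) (n : ℕ) (E : List (ℕ × ℕ)) (u v : ℕ) : Bool :=
  if u / m = v / m then
    (if gbit n E ((prs (n + 5)).getD (u / m) (0, 0)).1 ((prs (n + 5)).getD (u / m) (0, 0)).2 = true
      then decide ((u % m, v % m) ∈ LA) else decide ((u % m, v % m) ∈ LB))
  else
    (decide (((prs (n + 5)).getD (u / m) (0, 0)).1 = ((prs (n + 5)).getD (v / m) (0, 0)).1) ||
      decide (((prs (n + 5)).getD (u / m) (0, 0)).1 = ((prs (n + 5)).getD (v / m) (0, 0)).2) ||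
      decide (((prs (n + 5)).getD (u / m) (0, 0)).2 = ((prs (n + 5)).getD (v / m) (0, 0)).1) ||
      decide (((prs (n + 5)).getD (u / m) (0, 0)).2 = ((prs (n + 5)).getD (v / m) (0, 0)).2))

/-- the encoded graph -/
def encG (m : ℕ) (LA LB : List (ℕ × ℕ)) (x : ℕ × List (ℕ × ℕ)) : ℕ × List (ℕ × ℕ) :=
  ((prs (x.1 + 5)).length * m, edgesOf ((prs (x.1 + 5)).length * m) (adjN m LA LB x.1 x.2))

theorem PT_prs : PT prs := by
  unfold prs
  refine PT.filter (f := fun (_ : ℕ) (p : ℕ × ℕ) => decide (p.1 < p.2)) (by fun_prop) ?_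
  exact PT.product (by fun_prop) (by fun_prop)

theorem PT_encG (m : ℕ) (LA LB : List (ℕ × ℕ)) : PT (encG m LA LB) := by
  have h1 : PT fun x : ℕ × List (ℕ × ℕ) => prs (x.1 + 5) :=
    PT_prs.comp (g := fun x : ℕ × List (ℕ × ℕ) => x.1 + 5) (by fun_prop)
  have h2 : PT fun p : (ℕ × List (ℕ × ℕ)) × ℕ × ℕ => prs (p.1.1 + 5) :=
    PT_prs.comp (g := fun p : (ℕ × List (ℕ × ℕ)) × ℕ × ℕ => p.1.1 + 5) (by fun_prop)
  unfold encG
  refine PT.mk (by fun_prop) (PT.edgesOf (by fun_prop) ?_)
  unfold adjN gbit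
  fun_prop

/-- the vertices of the encoded graph -/
noncomputable def vtx (m N : ℕ) : Fin ((prs N).length * m) ≃ Pr (Fin N) × Fin m :=
  finProdFinEquiv.symm.trans ((Equiv.ofBijective _ (slotFun_bij N)).prodCongr (Equiv.refl _))

theorem encG_iso {m : ℕ} (A B : SimpleGraph (Fin m)) [DecidableRel A.Adj] [DecidableRel B.Adj]
    (n : ℕ) (E : List (ℕ × ℕ)) :
    Nonempty (graphOf (encG m (adjList A) (adjList B) (n, E)).1
      (encG m (adjList A) (adjList B) (n, E)).2 ≃g comp A B (padG n E)) := by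
  classical
  refine ⟨⟨vtx m (n + 5), ?_⟩⟩
  intro u v
  show (comp A B (padG n E)).Adj (vtx m (n + 5) u) (vtx m (n + 5) v) ↔
    (graphOf ((prs (n + 5)).length * m) (edgesOf ((prs (n + 5)).length * m)
      (adjN m (adjList A) (adjList B) n E))).Adj u v
  rw [graphOf_edgesOf_adj]
  have key : ∀ u v : Fin ((prs (n + 5)).length * m),
      (comp A B (padG n E)).Adj (vtx m (n + 5) u) (vtx m (n + 5) v) ↔
        adjN m (adjList A) (adjList B) n E u v = true := by
    intro u v
    have hu : vtx m (n + 5) u = (slotFun (n + 5) u.divNat, u.modNat) := rfl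
    have hv : vtx m (n + 5) v = (slotFun (n + 5) v.divNat, v.modNat) := rfl
    have hgu : (prs (n + 5)).getD (u.val / m) (0, 0) = (prs (n + 5))[u.divNat] :=
      List.getD_eq_getElem _ _ u.divNat.2
    have hgv : (prs (n + 5)).getD (v.val / m) (0, 0) = (prs (n + 5))[v.divNat] :=
      List.getD_eq_getElem _ _ v.divNat.2
    rw [hu, hv]
    unfold adjN
    rw [hgu, hgv]
    by_cases h : u.val / m = v.val / m
    · rw [if_pos h]
      have h1 : u.divNat = v.divNat := Fin.ext h
      rw [← h1]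
      show (sub (tri (Fin (n + 5))) _).Adj _ _ ↔ _
      rw [sub_adj_eq]
      have h2 : (slotFun (n + 5) u.divNat).1 ∈ (padG n E).edgeSet ↔
          gbit n E ((prs (n + 5))[u.divNat]).1 ((prs (n + 5))[u.divNat]).2 = true := by
        have h3 := (mem_prs.1 (List.getElem_mem u.divNat.2)).1
        show (padG n E).Adj _ _ ↔ _
        constructor
        · exact fun h => h.2
        · exact fun h => ⟨fun h4 => h3.ne (congrArg Fin.val h4), h⟩
      by_cases h4 : gbit n E ((prs (n + 5))[u.divNat]).1 ((prs (n + 5))[u.divNat]).2 = true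
      · rw [if_pos h4, if_pos (h2.2 h4), decide_eq_true_eq, ← mem_adjList]
        rfl
      · rw [if_neg h4, if_neg (fun h5 => h4 (h2.1 h5)), decide_eq_true_eq, ← mem_adjList]
        rfl
    · rw [if_neg h]
      have h1 : slotFun (n + 5) u.divNat ≠ slotFun (n + 5) v.divNat := fun h2 =>
        h (congrArg Fin.val ((slotFun_bij (n + 5)).1 h2))
      show (sub (tri (Fin (n + 5))) _).Adj _ _ ↔ _
      rw [sub_adj_ne h1]
      unfold slotFun at h1 ⊢
      rw [tri_adj_mkp]
      simp only [Bool.or_eq_true, decide_eq_true_eq, Fin.mk.injEq]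
      constructor
      · rintro ⟨-, h2⟩
        tauto
      · intro h2
        exact ⟨h1, by tauto⟩
  constructor
  · intro h
    refine ⟨fun h1 => ?_, Or.inl ((key u v).1 h)⟩
    have : u = v := Fin.ext h1
    subst this
    exact (comp A B (padG n E)).loopless.irrefl _ h
  · rintro ⟨-, h | h⟩
    · exact (key u v).2 h
    · exact ((key v u).2 h).symm

/-- adding isolated vertices -/
theorem padG_iso_iff (n m : ℕ) (E F : List (ℕ × ℕ)) :
    Nonempty (padG n E ≃g padG m F) ↔ Nonempty (graphOf n E ≃g graphOf m F) := by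
  classical
  have hadj : ∀ (n : ℕ) (E : List (ℕ × ℕ)) (u v : Fin n), (graphOf n E).Adj u v ↔
      (padG n E).Adj (Fin.castAdd 5 u) (Fin.castAdd 5 v) := by
    intro n E u v
    rw [graphOf_adj]
    show _ ↔ (_ ∧ gbit n E _ _ = true)
    unfold gbit
    simp [Fin.ext_iff]
  have hlow : ∀ (n : ℕ) (E : List (ℕ × ℕ)) (u v : Fin (n + 5)), (padG n E).Adj u v → u.val < n := by
    intro n E u v h
    have := h.2
    unfold gbit at this
    simp only [Bool.and_eq_true, decide_eq_true_eq] at this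
    exact this.1.1
  constructor
  · rintro ⟨φ⟩
    have hnm : n = m := by
      have := Fintype.card_congr φ.toEquiv
      rw [Fintype.card_fin, Fintype.card_fin] at this
      omega
    subst hnm
    -- vertices which are not isolated
    let P : Fin n → Prop := fun u => ∃ v, (padG n E).Adj (Fin.castAdd 5 u) v
    let Q : Fin n → Prop := fun u => ∃ v, (padG n F).Adj (Fin.castAdd 5 u) v
    have hφP : ∀ u, P u → (φ (Fin.castAdd 5 u)).val < n := by
      rintro u ⟨v, hv⟩
      exact hlow n F _ _ (φ.map_adj_iff.2 hv)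
    have hφQ : ∀ u, Q u → (φ.symm (Fin.castAdd 5 u)).val < n := by
      rintro u ⟨v, hv⟩
      exact hlow n E _ _ (φ.symm.map_adj_iff.2 hv)
    have hback : ∀ (w : Fin (n + 5)) (h : w.val < n), Fin.castAdd 5 (⟨w.val, h⟩ : Fin n) = w :=
      fun w h => Fin.ext rfl
    let e : {u // P u} ≃ {u // Q u} :=
      { toFun := fun u => ⟨⟨(φ (Fin.castAdd 5 u.1)).val, hφP u.1 u.2⟩, by
          obtain ⟨v, hv⟩ := u.2
          refine ⟨φ v, ?_⟩
          rw [hback]
          exact φ.map_adj_iff.2 hv⟩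
        invFun := fun u => ⟨⟨(φ.symm (Fin.castAdd 5 u.1)).val, hφQ u.1 u.2⟩, by
          obtain ⟨v, hv⟩ := u.2
          refine ⟨φ.symm v, ?_⟩
          rw [hback]
          exact φ.symm.map_adj_iff.2 hv⟩
        left_inv := fun u => by
          apply Subtype.ext
          apply Fin.ext
          simp only [hback]
          simp
        right_inv := fun u => by
          apply Subtype.ext
          apply Fin.ext
          simp only [hback]
          simp }
    let τ : Equiv.Perm (Fin n) := e.extendSubtype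
    have hτ : ∀ u (h : P u), τ u = (e ⟨u, h⟩).1 := fun u h =>
      Equiv.extendSubtype_apply_of_mem e u h
    have hτn : ∀ u, ¬ P u → ¬ Q (τ u) := fun u h => Equiv.extendSubtype_not_mem e u h
    refine ⟨⟨τ, ?_⟩⟩
    intro u v
    show (graphOf n F).Adj (τ u) (τ v) ↔ (graphOf n E).Adj u v
    by_cases hu : P u
    · by_cases hv : P v
      · rw [hadj, hadj, hτ u hu, hτ v hv]
        show (padG n F).Adj (Fin.castAdd 5 ⟨(φ (Fin.castAdd 5 u)).val, _⟩)
          (Fin.castAdd 5 ⟨(φ (Fin.castAdd 5 v)).val, _⟩) ↔ _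
        rw [hback, hback]
        exact φ.map_adj_iff
      · refine iff_of_false (fun h => ?_) (fun h => ?_)
        · exact hτn v hv ⟨_, ((hadj _ _ _ _).1 h).symm⟩
        · exact hv ⟨_, ((hadj _ _ _ _).1 h).symm⟩
    · refine iff_of_false (fun h => ?_) (fun h => ?_)
      · exact hτn u hu ⟨_, (hadj _ _ _ _).1 h⟩
      · exact hu ⟨_, (hadj _ _ _ _).1 h⟩
  · rintro ⟨φ⟩
    have hnm : n = m := by
      have := Fintype.card_congr φ.toEquiv
      rwa [Fintype.card_fin, Fintype.card_fin] at this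
    subst hnm
    let θ : Fin (n + 5) ≃ Fin (n + 5) :=
      finSumFinEquiv.symm.trans ((Equiv.sumCongr φ.toEquiv (Equiv.refl _)).trans finSumFinEquiv)
    have h1 : ∀ u : Fin n, θ (Fin.castAdd 5 u) = Fin.castAdd 5 (φ u) := by
      intro u
      show finSumFinEquiv ((Equiv.sumCongr φ.toEquiv (Equiv.refl _))
        (finSumFinEquiv.symm (Fin.castAdd 5 u))) = _
      rw [finSumFinEquiv_symm_apply_castAdd]
      rfl
    have h2 : ∀ u : Fin 5, θ (Fin.natAdd n u) = Fin.natAdd n u := by
      intro u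
      show finSumFinEquiv ((Equiv.sumCongr φ.toEquiv (Equiv.refl _))
        (finSumFinEquiv.symm (Fin.natAdd n u))) = _
      rw [finSumFinEquiv_symm_apply_natAdd]
      rfl
    have hno : ∀ (E : List (ℕ × ℕ)) (u : Fin 5) (v : Fin (n + 5)),
        ¬ (padG n E).Adj (Fin.natAdd n u) v := by
      intro E u v h
      have := hlow n E _ _ h
      simp only [Fin.val_natAdd] at this
      omega
    have hmain : ∀ u v, (padG n F).Adj (θ u) (θ v) ↔ (padG n E).Adj u v := by
      intro u v
      induction u using Fin.addCases with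
      | left u =>
        induction v using Fin.addCases with
        | left v => rw [h1, h1, ← hadj, ← hadj, φ.map_adj_iff]
        | right v =>
          rw [h2]
          exact iff_of_false (fun h => hno F v _ h.symm) (fun h => hno E v _ h.symm)
      | right u =>
        rw [h2]
        exact iff_of_false (hno F u _) (hno E u _)
    exact ⟨⟨θ, fun {u v} => hmain u v⟩⟩

/-- the reduction preserves and reflects isomorphism -/
theorem encG_iso_iff {m : ℕ} (hm : 0 < m) (A B : SimpleGraph (Fin m)) [DecidableRel A.Adj]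
    [DecidableRel B.Adj] (hAB : IsEmpty (A ≃g B)) (x y : ℕ × List (ℕ × ℕ)) :
    Nonempty (graphOf (encG m (adjList A) (adjList B) x).1 (encG m (adjList A) (adjList B) x).2 ≃g
      graphOf (encG m (adjList A) (adjList B) y).1 (encG m (adjList A) (adjList B) y).2) ↔
    Nonempty (graphOf x.1 x.2 ≃g graphOf y.1 y.2) := by
  obtain ⟨φ⟩ := encG_iso A B x.1 x.2
  obtain ⟨ψ⟩ := encG_iso A B y.1 y.2
  have : Nonempty (Fin m) := ⟨⟨0, hm⟩⟩
  have h1 := comp_iso_iff (V := Fin (x.1 + 5)) (V' := Fin (y.1 + 5)) (by simp) (by simp) hAB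
    (padG x.1 x.2) (padG y.1 y.2)
  rw [← padG_iso_iff x.1 y.1 x.2 y.2, ← h1]
  exact ⟨fun ⟨θ⟩ => ⟨φ.symm.trans (θ.trans ψ)⟩, fun ⟨θ⟩ => ⟨φ.trans (θ.trans ψ.symm)⟩⟩

end Run7.h529
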