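import Pool.Agent.Run7.h529.PPZ
import Pool.Agent.Run7.h529.CertDefs

/-!
The bipartite graphs on `n` vertices with `m` rows and `l` columns, and the number of certificates
for isomorphism whose rejections are explained by `t` bits.
-/

set_option autoImplicit false

namespace Run7.h529

open Finset

variable {m l n : ℕ}

/-- the bipartite graph or the split graph of a bit matrix, on the sum of the set of rows and the
set of columns -/
def bip (c : Bool) (x : Fin m × Fin l → Bool) : SimpleGraph (Fin m ⊕ Fin l) where
  Adj u v := match u, v with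
    | Sum.inl i, Sum.inr j => x (i, j) = true
    | Sum.inr j, Sum.inl i => x (i, j) = true
    | Sum.inr j, Sum.inr j' => j ≠ j' ∧ c = true
    | _, _ => False
  symm := ⟨by
    rintro (i | i) (j | j) h
    · exact h
    · exact h
    · exact h
    · exact ⟨fun h' => h.1 h'.symm, h.2⟩⟩
  loopless := ⟨by rintro (i | i) <;> simp⟩

/-- the same graph on `Fin n` -/
def gr (c : Bool) (e : Fin m ⊕ Fin l ≃ Fin n) (x : Fin m × Fin l → Bool) :
    SimpleGraph (Fin n) :=
  (bip c x).comap e.symm

theorem gr_inClass (c : Bool) (e : Fin m ⊕ Fin l ≃ Fin n) (x : Fin m × Fin l → Bool) :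
    InClass c (gr c e x) := by
  refine ⟨{u | (e.symm u).isRight = true}, ?_, ?_⟩
  · intro u hu v hv huv
    show (bip c x).Adj (e.symm u) (e.symm v) ↔ _
    have hne : e.symm u ≠ e.symm v := fun h => huv (e.symm.injective h)
    simp only [Set.mem_ofPred_eq] at hu hv
    rcases h1 : e.symm u with i | i <;> rcases h2 : e.symm v with j | j <;>
      rw [h1] at hu hne <;> rw [h2] at hv hne
    · simp at hu
    · simp at hu
    · simp at hv
    · simp only [bip]
      constructor
      · exact fun h => h.2
      · exact fun h => ⟨fun h' => hne (by rw [h']), h⟩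
  · intro u hu v hv
    show ¬ (bip c x).Adj (e.symm u) (e.symm v)
    simp only [Set.mem_ofPred_eq] at hu hv
    rcases h1 : e.symm u with i | i <;> rcases h2 : e.symm v with j | j <;>
      rw [h1] at hu <;> rw [h2] at hv
    · simp [bip]
    · simp at hv
    · simp at hu
    · simp at hu

/-- the pair of vertices that belongs to a position of the matrix -/
def pos (e : Fin m ⊕ Fin l ≃ Fin n) (p : Fin m × Fin l) : Sym2 (Fin n) :=
  s(e (Sum.inl p.1), e (Sum.inr p.2))

theorem pos_injective (e : Fin m ⊕ Fin l ≃ Fin n) : Function.Injective (pos e) := by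
  rintro ⟨i, j⟩ ⟨i', j'⟩ h
  simp only [pos, Sym2.eq_iff, EmbeddingLike.apply_eq_iff_eq, Sum.inl.injEq, Sum.inr.injEq,
    reduceCtorEq, and_false, or_false] at h
  rw [h.1, h.2]

/-- the edges that do not depend on the matrix -/
def base (c : Bool) (e : Fin m ⊕ Fin l ≃ Fin n) : Set (Sym2 (Fin n)) :=
  (gr c e (fun _ : Fin m × Fin l => false)).edgeSet

theorem mem_edgeSet (c : Bool) (e : Fin m ⊕ Fin l ≃ Fin n) (x : Fin m × Fin l → Bool)
    (a : Sym2 (Fin n)) :
    a ∈ (gr c e x).edgeSet ↔ (∃ p, pos e p = a ∧ x p = true) ∨ a ∈ base c e := by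
  induction a using Sym2.ind with
  | _ u v =>
    rw [base, SimpleGraph.mem_edgeSet, SimpleGraph.mem_edgeSet]
    show (bip c x).Adj (e.symm u) (e.symm v) ↔ _ ∨
      (bip c (fun _ : Fin m × Fin l => false)).Adj (e.symm u) (e.symm v)
    constructor
    · intro h
      rcases hu : e.symm u with i | i <;> rcases hv : e.symm v with j | j <;> rw [hu, hv] at h
      · exact absurd h (by simp [bip])
      · refine Or.inl ⟨(i, j), ?_, h⟩
        rw [Equiv.symm_apply_eq] at hu hv
        rw [pos, hu, hv]
      · refine Or.inl ⟨(j, i), ?_, h⟩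
        rw [Equiv.symm_apply_eq] at hu hv
        rw [pos, hu, hv, Sym2.eq_swap]
      · exact Or.inr h
    · rintro (⟨⟨i, j⟩, hp, hx⟩ | h)
      · simp only [pos, Sym2.eq_iff] at hp
        rcases hp with ⟨rfl, rfl⟩ | ⟨rfl, rfl⟩ <;> simp only [Equiv.symm_apply_apply] <;> exact hx
      · rcases hu : e.symm u with i | i <;> rcases hv : e.symm v with j | j <;> rw [hu, hv] at h
        · exact absurd h (by simp [bip])
        · exact absurd h (by simp [bip])
        · exact absurd h (by simp [bip])
        · exact h

theorem pos_notMem_base (c : Bool) (e : Fin m ⊕ Fin l ≃ Fin n) (p : Fin m × Fin l) :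
    pos e p ∉ base c e := by
  rw [base, pos, SimpleGraph.mem_edgeSet]
  show ¬ (bip c (fun _ : Fin m × Fin l => false)).Adj (e.symm (e (Sum.inl p.1)))
    (e.symm (e (Sum.inr p.2)))
  simp [bip]

theorem ncard_edgeSet (c : Bool) (e : Fin m ⊕ Fin l ≃ Fin n) (x : Fin m × Fin l → Bool) :
    (gr c e x).edgeSet.ncard = (univ.filter fun p => x p = true).card + (base c e).ncard := by
  have h : (gr c e x).edgeSet = pos e '' {p | x p = true} ∪ base c e := by
    ext a
    rw [mem_edgeSet, Set.mem_union]
    refine or_congr_left ?_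
    constructor
    · rintro ⟨p, h, hp⟩
      exact ⟨p, hp, h⟩
    · rintro ⟨p, hp, h⟩
      exact ⟨p, h, hp⟩
  have hd : Disjoint (pos e '' {p | x p = true}) (base c e) := by
    rw [Set.disjoint_left]
    rintro _ ⟨p, _, rfl⟩
    exact pos_notMem_base c e p
  rw [h, Set.ncard_union_eq hd (Set.toFinite _) (Set.toFinite _),
    Set.ncard_image_of_injective _ (pos_injective e), ← Set.ncard_coe_finset]
  congr 2
  ext p
  simp

/-- permuting the rows does not change the isomorphism type -/
theorem gr_iso (c : Bool) (e : Fin m ⊕ Fin l ≃ Fin n) (x y : Fin m × Fin l → Bool)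
    (σ : Equiv.Perm (Fin m))
    (h : ∀ i j, y (σ i, j) = x (i, j)) : Nonempty (gr c e x ≃g gr c e y) := by
  refine ⟨⟨(e.symm.trans (Equiv.sumCongr σ (Equiv.refl _))).trans e, ?_⟩⟩
  intro u v
  show (bip c y).Adj (e.symm (e (Equiv.sumCongr σ (Equiv.refl _) (e.symm u))))
    (e.symm (e (Equiv.sumCongr σ (Equiv.refl _) (e.symm v)))) ↔
    (bip c x).Adj (e.symm u) (e.symm v)
  simp only [Equiv.symm_apply_apply]
  rcases e.symm u with i | i <;> rcases e.symm v with j | j <;> simp [bip, h]

/-- the numbers of the rows of each type -/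
def types (x : Fin m × Fin l → Bool) : (Fin l → Bool) → Fin (m + 1) := fun τ =>
  ⟨(univ.filter fun i => (fun j => x (i, j)) = τ).card, by
    have := card_filter_le (univ : Finset (Fin m)) (fun i => (fun j => x (i, j)) = τ)
    rw [card_univ, Fintype.card_fin] at this
    omega⟩

theorem iso_of_types (c : Bool) (e : Fin m ⊕ Fin l ≃ Fin n) (x y : Fin m × Fin l → Bool)
    (h : types x = types y) : Nonempty (gr c e x ≃g gr c e y) := by
  have h1 : ∀ τ : Fin l → Bool, Nonempty ({i : Fin m // (fun j => x (i, j)) = τ} ≃
      {i : Fin m // (fun j => y (i, j)) = τ}) := by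
    intro τ
    rw [← Fintype.card_eq, Fintype.card_subtype, Fintype.card_subtype]
    have := congrFun h τ
    simpa [types, Fin.ext_iff] using this
  let E := fun τ => Classical.choice (h1 τ)
  refine gr_iso c e x y (Equiv.ofFiberEquiv (f := fun i j => x (i, j)) (g := fun i j => y (i, j))
    E) ?_
  intro i j
  have := Equiv.ofFiberEquiv_map (f := fun i j => x (i, j)) (g := fun i j => y (i, j)) E i
  exact congrFun this j

/-- the positions of two matrices -/
abbrev Pos2 (m l : ℕ) : Type := Bool × (Fin m × Fin l)

/-- the two matrices of a bit vector -/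
def mat (z : Pos2 m l → Bool) (b : Bool) : Fin m × Fin l → Bool := fun p => z (b, p)

theorem card_true_flip (z : Pos2 m l → Bool) (i : Pos2 m l) :
    (univ.filter fun p => mat (flip z i) i.1 p = true).card =
      (univ.filter fun p => mat z i.1 p = true).card + 1 ∨
    (univ.filter fun p => mat (flip z i) i.1 p = true).card + 1 =
      (univ.filter fun p => mat z i.1 p = true).card := by
  classical
  obtain ⟨b, p⟩ := i
  have hne : ∀ q, q ≠ p → mat (flip z (b, p)) b q = mat z b q := by
    intro q hq
    apply flip_ne
    intro h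
    exact hq (Prod.ext_iff.1 h).2
  have hsame : mat (flip z (b, p)) b p = !mat z b p := flip_same z (b, p)
  cases hz : mat z b p
  · left
    have : (univ.filter fun q => mat (flip z (b, p)) b q = true) =
        insert p (univ.filter fun q => mat z b q = true) := by
      ext q
      simp only [mem_filter, mem_univ, true_and, mem_insert]
      by_cases hq : q = p
      · subst hq
        simp [hsame, hz]
      · simp [hne q hq, hq]
    rw [this, card_insert_of_notMem (by simp [hz])]
  · right
    have : (univ.filter fun q => mat z b q = true) =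
        insert p (univ.filter fun q => mat (flip z (b, p)) b q = true) := by
      ext q
      simp only [mem_filter, mem_univ, true_and, mem_insert]
      by_cases hq : q = p
      · subst hq
        simp [hz]
      · simp [hne q hq, hq]
    rw [this, card_insert_of_notMem (by simp [hsame, hz])]

theorem mat_flip_other (z : Pos2 m l → Bool) (i : Pos2 m l) :
    mat (flip z i) (!i.1) = mat z (!i.1) := by
  funext p
  apply flip_ne
  intro h
  have := (Prod.ext_iff.1 h).1
  simp at this

/-- the number of edges of the first graph minus the number of edges of the second one changes by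
one if one bit is changed -/
theorem edges_flip (c : Bool) (e : Fin m ⊕ Fin l ≃ Fin n) (z : Pos2 m l → Bool) (i : Pos2 m l)
    (h : (gr c e (mat z false)).edgeSet.ncard = (gr c e (mat z true)).edgeSet.ncard) :
    (gr c e (mat (flip z i) false)).edgeSet.ncard =
      (gr c e (mat (flip z i) true)).edgeSet.ncard + 1 ∨
    (gr c e (mat (flip z i) true)).edgeSet.ncard =
      (gr c e (mat (flip z i) false)).edgeSet.ncard + 1 := by
  have h1 := card_true_flip z i
  have h2 := mat_flip_other z i
  simp only [ncard_edgeSet] at h ⊢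
  obtain ⟨b, p⟩ := i
  cases b
  · simp only [Bool.not_false] at h2
    rw [h2]
    simp only at h1
    omega
  · simp only [Bool.not_true] at h2
    rw [h2]
    simp only at h1
    omega

open Classical in
/-- The bound for a fixed shape of the matrices. -/
theorem shape_bound (c : Bool) (e : Fin m ⊕ Fin l ≃ Fin n) (t : ℕ) (ht : 1 ≤ t) (W : Type) [Fintype W]
    (P : W → SimpleGraph (Fin n) → SimpleGraph (Fin n) → Prop)
    (hP : ∀ w, LocallyRefutable (InClass c) t (P w))
    (hcomp : ∀ G H : SimpleGraph (Fin n), InClass c G → InClass c H → Nonempty (G ≃g H) →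
      ∃ w, P w G H)
    (hsound : ∀ w (G H : SimpleGraph (Fin n)), InClass c G → InClass c H → P w G H →
      G.edgeSet.ncard ≠ H.edgeSet.ncard + 1 ∧ H.edgeSet.ncard ≠ G.edgeSet.ncard + 1) :
    (2 : ℝ) ^ ((2 * (m * l) : ℝ) / t) ≤ Fintype.card W * ((m : ℝ) + 1) ^ (2 ^ l) := by
  classical
  set S : W → Finset (Pos2 m l → Bool) := fun w => univ.filter fun z =>
    P w (gr c e (mat z false)) (gr c e (mat z true)) ∧
      (gr c e (mat z false)).edgeSet.ncard = (gr c e (mat z true)).edgeSet.ncard with hS
  have hN : Fintype.card (Pos2 m l) = 2 * (m * l) := by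
    simp [Fintype.card_prod, Fintype.card_bool]
  -- the members of `S w` are isolated
  have hsmall : ∀ w, ((S w).card : ℝ) * (2 : ℝ) ^ ((2 * (m * l) : ℝ) / t) ≤
      2 ^ (2 * (m * l)) := by
    intro w
    have key : ∀ z : Pos2 m l → Bool, ∀ i : Pos2 m l, ∃ T : Finset (Pos2 m l), z ∈ S w →
        (T.card ≤ t ∧ ∀ z' : Pos2 m l → Bool, (∀ j ∈ T, z' j = flip z i j) → z' ∉ S w) := by
      intro z i
      by_cases hz : z ∈ S w
      swap
      · exact ⟨∅, fun h => absurd h hz⟩
      simp only [hS, mem_filter, mem_univ, true_and] at hz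
      have h1 := edges_flip c e z i hz.2
      have h2 : ¬ P w (gr c e (mat (flip z i) false)) (gr c e (mat (flip z i) true)) := by
        intro h
        have h3 := hsound w _ _ (gr_inClass c e _) (gr_inClass c e _) h
        rcases h1 with h1 | h1
        · exact h3.1 h1
        · exact h3.2 h1
      obtain ⟨A, B, hAB, hloc⟩ := hP w _ _ (gr_inClass c e _) (gr_inClass c e _) h2
      refine ⟨(univ.filter fun j : Pos2 m l => (j.1 = false ∧ pos e j.2 ∈ A) ∨
        (j.1 = true ∧ pos e j.2 ∈ B)), fun _ => ⟨?_, ?_⟩⟩
      · have : (univ.filter fun j : Pos2 m l => (j.1 = false ∧ pos e j.2 ∈ A) ∨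
            (j.1 = true ∧ pos e j.2 ∈ B)).card ≤ (A.disjSum B).card := by
          refine card_le_card_of_injOn (fun j => if j.1 = false then Sum.inl (pos e j.2)
            else Sum.inr (pos e j.2)) ?_ ?_
          · rintro ⟨b, p⟩ hj
            simp only [coe_filter, mem_univ, true_and, Set.mem_ofPred_eq] at hj
            cases b <;> simp at hj ⊢ <;> exact hj
          · rintro ⟨b, p⟩ _ ⟨b', p'⟩ _ h
            cases b <;> cases b' <;> simp at h ⊢ <;> exact pos_injective e h
        rw [card_disjSum] at this
        exact this.trans hAB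
      · intro z' hz' hmem
        simp only [hS, mem_filter, mem_univ, true_and] at hmem
        refine hloc (gr c e (mat z' false)) (gr c e (mat z' true)) (gr_inClass c e _)
          (gr_inClass c e _) ?_ ?_ hmem.1
        · intro a ha
          rw [mem_edgeSet, mem_edgeSet]
          refine or_congr_left (exists_congr fun p => and_congr_right fun hp => ?_)
          have := hz' (false, p) (by simp [hp, ha])
          show z' (false, p) = true ↔ flip z i (false, p) = true
          rw [this]
        · intro a ha
          rw [mem_edgeSet, mem_edgeSet]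
          refine or_congr_left (exists_congr fun p => and_congr_right fun hp => ?_)
          have := hz' (true, p) (by simp [hp, ha])
          show z' (true, p) = true ↔ flip z i (true, p) = true
          rw [this]
    choose T hT using key
    have := ppz t ht (S w) T (fun z hz i => (hT z i hz).1) (fun z hz i => (hT z i hz).2)
    rw [hN] at this
    push_cast at this
    exact this
  -- all pairs of matrices with the same types of rows are covered
  set A : Finset (Pos2 m l → Bool) := univ.filter fun z => types (mat z false) = types (mat z true)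
    with hA
  have hcover : A ⊆ univ.biUnion S := by
    intro z hz
    simp only [hA, mem_filter, mem_univ, true_and] at hz
    obtain ⟨φ⟩ := iso_of_types c e _ _ hz
    obtain ⟨w, hw⟩ := hcomp _ _ (gr_inClass c e _) (gr_inClass c e _) ⟨φ⟩
    rw [mem_biUnion]
    refine ⟨w, mem_univ _, ?_⟩
    simp only [hS, mem_filter, mem_univ, true_and]
    refine ⟨hw, ?_⟩
    rw [← Nat.card_coe_set_eq, ← Nat.card_coe_set_eq]
    exact Nat.card_congr φ.mapEdgeSet
  have hAcard : ((2 : ℝ) ^ (m * l)) ^ 2 ≤ ((m : ℝ) + 1) ^ (2 ^ l) * A.card := by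
    have h1 := sq_sum_le_card_mul_sum_sq
      (s := (univ : Finset ((Fin l → Bool) → Fin (m + 1))))
      (f := fun k => ((univ.filter fun x : Fin m × Fin l → Bool => types x = k).card : ℝ))
    have h2 : ∑ k : (Fin l → Bool) → Fin (m + 1),
        ((univ.filter fun x : Fin m × Fin l → Bool => types x = k).card : ℝ) =
        (2 : ℝ) ^ (m * l) := by
      have : ∑ k : (Fin l → Bool) → Fin (m + 1),
          (univ.filter fun x : Fin m × Fin l → Bool => types x = k).card =
          (univ : Finset (Fin m × Fin l → Bool)).card :=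
        (card_eq_sum_card_fiberwise fun _ _ => mem_univ _).symm
      rw [card_univ] at this
      have h3 : ((∑ k : (Fin l → Bool) → Fin (m + 1),
          (univ.filter fun x : Fin m × Fin l → Bool => types x = k).card : ℕ) : ℝ) =
          ((Fintype.card (Fin m × Fin l → Bool) : ℕ) : ℝ) := by exact_mod_cast this
      push_cast at h3
      rw [h3]
      simp
    have h4 : ∑ k : (Fin l → Bool) → Fin (m + 1),
        ((univ.filter fun x : Fin m × Fin l → Bool => types x = k).card : ℝ) ^ 2 = A.card := by
      have h5 : A.card = ∑ k : (Fin l → Bool) → Fin (m + 1),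
          (A.filter fun z => types (mat z false) = k).card :=
        card_eq_sum_card_fiberwise fun _ _ => mem_univ _
      rw [h5]
      push_cast
      refine sum_congr rfl fun k _ => ?_
      have h6 : (A.filter fun z => types (mat z false) = k).card =
          ((univ.filter fun x : Fin m × Fin l → Bool => types x = k) ×ˢ
            (univ.filter fun x : Fin m × Fin l → Bool => types x = k)).card := by
        refine card_bij' (fun z _ => (mat z false, mat z true))
          (fun q _ => fun j : Pos2 m l => if j.1 = false then q.1 j.2 else q.2 j.2) ?_ ?_ ?_ ?_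
        · intro z hz
          simp only [hA, mem_filter, mem_univ, true_and] at hz
          simp only [mem_product, mem_filter, mem_univ, true_and]
          exact ⟨hz.2, hz.1 ▸ hz.2⟩
        · intro q hq
          simp only [mem_product, mem_filter, mem_univ, true_and] at hq
          have e1 : mat (fun j : Pos2 m l => if j.1 = false then q.1 j.2 else q.2 j.2) false =
              q.1 := by funext p; simp [mat]
          have e2 : mat (fun j : Pos2 m l => if j.1 = false then q.1 j.2 else q.2 j.2) true =
              q.2 := by funext p; simp [mat]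
          simp only [hA, mem_filter, mem_univ, true_and, e1, e2]
          exact ⟨hq.1.trans hq.2.symm, hq.1⟩
        · intro z _
          funext ⟨b, p⟩
          cases b <;> simp [mat]
        · intro q _
          apply Prod.ext
          · funext p; simp [mat]
          · funext p; simp [mat]
      rw [h6, card_product]
      push_cast
      ring
    rw [h2, h4] at h1
    refine h1.trans (le_of_eq ?_)
    congr 1
    rw [card_univ]
    simp
  have hAle : (A.card : ℝ) * (2 : ℝ) ^ ((2 * (m * l) : ℝ) / t) ≤
      Fintype.card W * 2 ^ (2 * (m * l)) := by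
    have h1 : (A.card : ℝ) ≤ ∑ w, ((S w).card : ℝ) := by
      have : A.card ≤ ∑ w, (S w).card := (card_le_card hcover).trans card_biUnion_le
      exact_mod_cast this
    calc (A.card : ℝ) * (2 : ℝ) ^ ((2 * (m * l) : ℝ) / t)
        ≤ (∑ w, ((S w).card : ℝ)) * (2 : ℝ) ^ ((2 * (m * l) : ℝ) / t) :=
          mul_le_mul_of_nonneg_right h1 (by positivity)
      _ = ∑ w, ((S w).card : ℝ) * (2 : ℝ) ^ ((2 * (m * l) : ℝ) / t) := sum_mul _ _ _
      _ ≤ ∑ _w : W, (2 : ℝ) ^ (2 * (m * l)) := sum_le_sum fun w _ => hsmall w
      _ = Fintype.card W * 2 ^ (2 * (m * l)) := by rw [sum_const, card_univ, nsmul_eq_mul]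
  have e2 : ((2 : ℝ) ^ (m * l)) ^ 2 = 2 ^ (2 * (m * l)) := by rw [← pow_mul]; ring_nf
  rw [e2] at hAcard
  have hpos : (0 : ℝ) < 2 ^ (2 * (m * l)) := by positivity
  have h7 : (2 : ℝ) ^ (2 * (m * l)) * (2 : ℝ) ^ ((2 * (m * l) : ℝ) / t) ≤
      (2 : ℝ) ^ (2 * (m * l)) * (Fintype.card W * ((m : ℝ) + 1) ^ (2 ^ l)) := by
    calc (2 : ℝ) ^ (2 * (m * l)) * (2 : ℝ) ^ ((2 * (m * l) : ℝ) / t)
        ≤ (((m : ℝ) + 1) ^ (2 ^ l) * A.card) * (2 : ℝ) ^ ((2 * (m * l) : ℝ) / t) :=
          mul_le_mul_of_nonneg_right hAcard (by positivity)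
      _ = ((m : ℝ) + 1) ^ (2 ^ l) * (A.card * (2 : ℝ) ^ ((2 * (m * l) : ℝ) / t)) := by ring
      _ ≤ ((m : ℝ) + 1) ^ (2 ^ l) * (Fintype.card W * 2 ^ (2 * (m * l))) :=
          mul_le_mul_of_nonneg_left hAle (by positivity)
      _ = _ := by ring
  exact le_of_mul_le_mul_left h7 hpos

end Run7.h529
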