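import Pool.Agent.Run7.h529.SubDef

/-!
# Substitution of graphs for the vertices of a graph
-/

set_option autoImplicit false

namespace Run7.h529

/-- Any two vertices are separated by two more vertices. -/
def Spread {S : Type} (T : SimpleGraph S) : Prop :=
  ∀ e f, e ≠ f → ∃ g g', g ≠ g' ∧ (g ≠ e ∧ g ≠ f ∧ ¬ (T.Adj e g ↔ T.Adj f g)) ∧
    (g' ≠ e ∧ g' ≠ f ∧ ¬ (T.Adj e g' ↔ T.Adj f g'))

/-- the vertices that separate `u` and `v` -/
def sepset {W : Type} (G : SimpleGraph W) (u v : W) : Set W := {w | ¬ (G.Adj u w ↔ G.Adj v w)}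

theorem sub_adj_ne {S F : Type} {T : SimpleGraph S} {X : S → SimpleGraph F} {e f : S} (h : e ≠ f)
    (p q : F) : (sub T X).Adj (e, p) (f, q) ↔ T.Adj e f := by
  constructor
  · rintro (⟨h1, _⟩ | h1)
    · exact absurd h1 h
    · exact h1
  · exact Or.inr

theorem sub_adj_eq {S F : Type} {T : SimpleGraph S} {X : S → SimpleGraph F} (e : S)
    (p q : F) : (sub T X).Adj (e, p) (e, q) ↔ (X e).Adj p q := by
  constructor
  · rintro (⟨_, h1⟩ | h1)
    · exact h1
    · exact absurd h1 (T.loopless.irrefl e)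
  · exact fun h => Or.inl ⟨rfl, h⟩

theorem sepset_ncard {W W' : Type} {G : SimpleGraph W} {H : SimpleGraph W'} (φ : G ≃g H)
    (u v : W) : (sepset H (φ u) (φ v)).ncard = (sepset G u v).ncard := by
  have : sepset H (φ u) (φ v) = φ '' sepset G u v := by
    ext w
    constructor
    · intro h
      refine ⟨φ.symm w, ?_, by simp⟩
      intro h2
      apply h
      have e : w = φ (φ.symm w) := by simp
      rw [e, φ.map_adj_iff, φ.map_adj_iff]
      exact h2
    · rintro ⟨x, hx, rfl⟩ h2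
      apply hx
      rwa [φ.map_adj_iff, φ.map_adj_iff] at h2
  rw [this, Set.ncard_image_of_injective _ φ.injective]

theorem same_iff {S F : Type} [Finite S] [Finite F] [Nonempty F] {T : SimpleGraph S} (hT : Spread T)
    (X : S → SimpleGraph F) (u v : S × F) :
    u.1 = v.1 ↔ (sepset (sub T X) u v).ncard ≤ Nat.card F := by
  classical
  obtain ⟨e, p⟩ := u
  obtain ⟨f, q⟩ := v
  simp only
  have hcard : ∀ e : S, ((fun r : F => (e, r)) '' Set.univ).ncard = Nat.card F := by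
    intro e
    rw [Set.ncard_image_of_injective _ (fun a b h => (Prod.mk.inj h).2), Set.ncard_univ]
  constructor
  · rintro rfl
    rw [← hcard e]
    refine Set.ncard_le_ncard ?_ (Set.toFinite _)
    rintro ⟨g, r⟩ hg
    by_cases h : g = e
    · subst h; exact ⟨r, trivial, rfl⟩
    · exact absurd (by rw [sub_adj_ne (Ne.symm h), sub_adj_ne (Ne.symm h)]) hg
  · intro hle
    by_contra hne
    obtain ⟨g, g', hgg, ⟨h1, h2, h3⟩, ⟨h4, h5, h6⟩⟩ := hT e f hne
    have hsub : (fun r : F => (g, r)) '' Set.univ ∪ (fun r : F => (g', r)) '' Set.univ ⊆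
        sepset (sub T X) (e, p) (f, q) := by
      rintro w (⟨r, _, rfl⟩ | ⟨r, _, rfl⟩)
      · intro h
        apply h3
        rwa [sub_adj_ne (Ne.symm h1), sub_adj_ne (Ne.symm h2)] at h
      · intro h
        apply h6
        rwa [sub_adj_ne (Ne.symm h4), sub_adj_ne (Ne.symm h5)] at h
    have hdis : Disjoint ((fun r : F => (g, r)) '' Set.univ) ((fun r : F => (g', r)) '' Set.univ) := by
      rw [Set.disjoint_left]
      rintro w ⟨r, _, rfl⟩ ⟨r', _, h⟩
      exact hgg (Prod.mk.inj h).1.symm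
    have h7 := Set.ncard_le_ncard hsub (Set.toFinite _)
    rw [Set.ncard_union_eq hdis (Set.toFinite _) (Set.toFinite _), hcard, hcard] at h7
    have h8 : 0 < Nat.card F := Nat.card_pos
    omega

/-- isomorphisms of substituted graphs respect the slots -/
theorem sub_iso {S S' F : Type} [Finite S] [Finite S'] [Finite F] [Nonempty F]
    {T : SimpleGraph S} {T' : SimpleGraph S'} (hT : Spread T) (hT' : Spread T')
    {X : S → SimpleGraph F} {X' : S' → SimpleGraph F} (φ : sub T X ≃g sub T' X') :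
    ∃ ψ : T ≃g T', ∀ e, Nonempty (X e ≃g X' (ψ e)) := by
  classical
  have hs : ∀ u v, u.1 = v.1 ↔ (φ u).1 = (φ v).1 := by
    intro u v
    rw [same_iff hT X, same_iff hT' X', sepset_ncard]
  obtain ⟨p₀⟩ := ‹Nonempty F›
  have h1 : ∀ e p, (φ (e, p)).1 = (φ (e, p₀)).1 := fun e p => (hs (e, p) (e, p₀)).1 rfl
  have hs' : ∀ u v, u.1 = v.1 ↔ (φ.symm u).1 = (φ.symm v).1 := by
    intro u v
    have := hs (φ.symm u) (φ.symm v)
    simp only [RelIso.apply_symm_apply] at this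
    exact this.symm
  have h2 : ∀ e p, (φ.symm (e, p)).1 = (φ.symm (e, p₀)).1 := fun e p => (hs' (e, p) (e, p₀)).1 rfl
  have hleft : ∀ e, (φ.symm ((φ (e, p₀)).1, p₀)).1 = e := by
    intro e
    rw [← h2 _ (φ (e, p₀)).2]
    simp
  have hright : ∀ e, (φ ((φ.symm (e, p₀)).1, p₀)).1 = e := by
    intro e
    rw [← h1 _ (φ.symm (e, p₀)).2]
    simp
  let ψ₀ : S ≃ S' := ⟨fun e => (φ (e, p₀)).1, fun e => (φ.symm (e, p₀)).1, hleft, hright⟩
  have hadj : ∀ e f, T'.Adj (ψ₀ e) (ψ₀ f) ↔ T.Adj e f := by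
    intro e f
    by_cases h : e = f
    · subst h
      exact ⟨fun h => absurd h (T'.loopless.irrefl _), fun h => absurd h (T.loopless.irrefl _)⟩
    · have h' : ψ₀ e ≠ ψ₀ f := fun h3 => h (ψ₀.injective h3)
      rw [← sub_adj_ne (T := T) (X := X) h p₀ p₀, ← φ.map_adj_iff]
      exact (sub_adj_ne (T := T') (X := X') h' (φ (e, p₀)).2 (φ (f, p₀)).2).symm
  refine ⟨⟨ψ₀, fun {a b} => hadj a b⟩, fun e => ?_⟩
  let χ : F ≃ F := ⟨fun p => (φ (e, p)).2, fun p => (φ.symm (ψ₀ e, p)).2, fun p => by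
      have : (ψ₀ e, (φ (e, p)).2) = φ (e, p) := Prod.ext (h1 e p).symm rfl
      simp [this], fun p => by
      have h3 : (φ.symm (ψ₀ e, p)).1 = e := by rw [h2]; exact hleft e
      have : (e, (φ.symm (ψ₀ e, p)).2) = φ.symm (ψ₀ e, p) := Prod.ext h3.symm rfl
      simp [this]⟩
  refine ⟨⟨χ, fun {p q} => ?_⟩⟩
  have h3 : ∀ p, (ψ₀ e, χ p) = φ (e, p) := fun p => Prod.ext (h1 e p).symm rfl
  show (X' (ψ₀ e)).Adj (χ p) (χ q) ↔ _
  rw [← sub_adj_eq (T := T') (X := X'), h3, h3, φ.map_adj_iff, sub_adj_eq]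

/-- isomorphic skeletons with isomorphic substituted graphs give isomorphic graphs -/
theorem iso_sub {S S' F : Type} {T : SimpleGraph S} {T' : SimpleGraph S'}
    {X : S → SimpleGraph F} {X' : S' → SimpleGraph F} (ψ : T ≃g T')
    (h : ∀ e, Nonempty (X e ≃g X' (ψ e))) : Nonempty (sub T X ≃g sub T' X') := by
  classical
  have χ : ∀ e, X e ≃g X' (ψ e) := fun e => (h e).some
  let θ : S × F ≃ S' × F := Equiv.ofBijective (fun x => (ψ x.1, χ x.1 x.2)) (by
    constructor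
    · rintro ⟨e, p⟩ ⟨f, q⟩ hx
      obtain ⟨h1, h2⟩ := Prod.mk.inj hx
      simp only at h1 h2
      have h3 := ψ.injective h1
      subst h3
      rw [(χ e).injective h2]
    · rintro ⟨e, p⟩
      obtain ⟨f, rfl⟩ := ψ.surjective e
      obtain ⟨q, rfl⟩ := (χ f).surjective p
      exact ⟨(f, q), rfl⟩)
  refine ⟨⟨θ, ?_⟩⟩
  rintro ⟨e, p⟩ ⟨f, q⟩
  show (sub T' X').Adj (ψ e, χ e p) (ψ f, χ f q) ↔ _
  by_cases hef : e = f
  · subst hef
    rw [sub_adj_eq, sub_adj_eq, (χ e).map_adj_iff]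
  · rw [sub_adj_ne (fun h => hef (ψ.injective h)), sub_adj_ne hef, ψ.map_adj_iff]

end Run7.h529
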