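import Pool.Agent.Run7.h529.TestDefs
import Pool.Agent.Run7.h529.Sub

/-!
# Numbers of homomorphisms are compositional
-/

set_option autoImplicit false

namespace Run7.h529

theorem hom_finite {V W : Type} [Finite V] [Finite W] (K : SimpleGraph V) (G : SimpleGraph W) :
    Finite (K →g G) :=
  Finite.of_injective (fun φ : K →g G => (φ : V → W)) DFunLike.coe_injective

/-- homomorphisms from isomorphic graphs -/
theorem card_hom_congr_left {V V' W : Type} {K : SimpleGraph V} {K' : SimpleGraph V'}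
    {G : SimpleGraph W} (e : K ≃g K') : Nat.card (K →g G) = Nat.card (K' →g G) := by
  refine Nat.card_congr ⟨fun f => f.comp e.symm.toHom, fun f => f.comp e.toHom, ?_, ?_⟩
  · intro f
    ext v
    simp
  · intro f
    ext v
    simp

/-- homomorphisms to isomorphic graphs -/
theorem card_hom_congr_right {V W W' : Type} {K : SimpleGraph V} {G : SimpleGraph W}
    {G' : SimpleGraph W'} (e : G ≃g G') : Nat.card (K →g G) = Nat.card (K →g G') := by
  refine Nat.card_congr ⟨fun f => e.toHom.comp f, fun f => e.symm.toHom.comp f, ?_, ?_⟩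
  · intro f
    ext v
    simp
  · intro f
    ext v
    simp

/-- homomorphisms with given slots -/
def homEquivPi {V S F : Type} (K : SimpleGraph V) (T : SimpleGraph S) (X : S → SimpleGraph F)
    (ρ : V → S) (hρ : ∀ u v, K.Adj u v → ρ u = ρ v ∨ T.Adj (ρ u) (ρ v)) :
    {φ : K →g sub T X // ∀ v, (φ v).1 = ρ v} ≃ (∀ e, K.induce {v | ρ v = e} →g X e) where
  toFun φ e := ⟨fun v => (φ.1 v.1).2, by
    intro a b hab
    have h1 : K.Adj a.1 b.1 := hab
    have h2 := φ.1.map_adj h1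
    have ha : φ.1 a.1 = (e, (φ.1 a.1).2) := Prod.ext ((φ.2 a.1).trans a.2) rfl
    have hb : φ.1 b.1 = (e, (φ.1 b.1).2) := Prod.ext ((φ.2 b.1).trans b.2) rfl
    rw [ha, hb, sub_adj_eq] at h2
    exact h2⟩
  invFun h := ⟨⟨fun v => (ρ v, h (ρ v) ⟨v, rfl⟩), by
    intro a b hab
    show (sub T X).Adj (ρ a, h (ρ a) ⟨a, rfl⟩) (ρ b, h (ρ b) ⟨b, rfl⟩)
    rcases hρ a b hab with h1 | h1
    · have key : ∀ (e : S) (hb : ρ b = e),
          ((ρ b, h (ρ b) ⟨b, rfl⟩) : S × F) = (e, h e ⟨b, hb⟩) := by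
        rintro e rfl
        rfl
      rw [key (ρ a) h1.symm, sub_adj_eq]
      exact (h (ρ a)).map_adj (show (K.induce {v | ρ v = ρ a}).Adj ⟨a, rfl⟩ ⟨b, h1.symm⟩ from hab)
    · exact Or.inr h1⟩, fun v => rfl⟩
  left_inv φ := by
    apply Subtype.ext
    ext v
    · exact (φ.2 v).symm
    · rfl
  right_inv h := by
    funext e
    ext ⟨v, hv⟩
    have hv' : ρ v = e := hv
    subst hv'
    rfl

theorem card_fixed {n : ℕ} {S F : Type} [Fintype S] [Fintype F]
    {𝓕 : ∀ n : ℕ, Set (SimpleGraph (Fin n))} (h𝓕 : Hereditary 𝓕) {K : SimpleGraph (Fin n)}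
    (hK : K ∈ 𝓕 n) (T : SimpleGraph S) (X Y : S → SimpleGraph F)
    (h : ∀ e, HomEquiv 𝓕 (X e) (Y e)) (ρ : Fin n → S) :
    Nat.card {φ : K →g sub T X // ∀ v, (φ v).1 = ρ v} =
      Nat.card {φ : K →g sub T Y // ∀ v, (φ v).1 = ρ v} := by
  classical
  by_cases hρ : ∀ u v, K.Adj u v → ρ u = ρ v ∨ T.Adj (ρ u) (ρ v)
  · rw [Nat.card_congr (homEquivPi K T X ρ hρ), Nat.card_congr (homEquivPi K T Y ρ hρ),
      Nat.card_pi, Nat.card_pi]
    refine Finset.prod_congr rfl fun e _ => ?_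
    let s : Set (Fin n) := {v | ρ v = e}
    let ι : Fin (Fintype.card s) ↪ Fin n :=
      (Fintype.equivFin s).symm.toEmbedding.trans (Function.Embedding.subtype _)
    have iso : K.comap ι ≃g K.induce s :=
      { toEquiv := (Fintype.equivFin s).symm
        map_rel_iff' := Iff.rfl }
    rw [← card_hom_congr_left iso, ← card_hom_congr_left iso]
    exact h e _ _ (h𝓕 _ _ K ι hK)
  · have key : ∀ X : S → SimpleGraph F,
        IsEmpty {φ : K →g sub T X // ∀ v, (φ v).1 = ρ v} := by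
      intro X
      constructor
      rintro ⟨φ, hφ⟩
      apply hρ
      intro u v huv
      rw [← hφ u, ← hφ v]
      rcases φ.map_adj huv with h1 | h1
      · exact Or.inl h1.1
      · exact Or.inr h1
    rw [Nat.card_eq_zero.2 (Or.inl (key X)), Nat.card_eq_zero.2 (Or.inl (key Y))]

theorem homEquiv_sub {S F : Type} [Fintype S] [Fintype F]
    {𝓕 : ∀ n : ℕ, Set (SimpleGraph (Fin n))} (h𝓕 : Hereditary 𝓕) (T : SimpleGraph S)
    (X Y : S → SimpleGraph F) (h : ∀ e, HomEquiv 𝓕 (X e) (Y e)) :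
    HomEquiv 𝓕 (sub T X) (sub T Y) := by
  classical
  intro n K hK
  have key : ∀ X : S → SimpleGraph F, Nat.card (K →g sub T X) =
      ∑ ρ : Fin n → S, Nat.card {φ : K →g sub T X // ∀ v, (φ v).1 = ρ v} := by
    intro X
    have : Finite (K →g sub T X) := hom_finite _ _
    rw [← Nat.card_sigma]
    refine Nat.card_congr ⟨fun φ => ⟨fun v => (φ v).1, φ, fun v => rfl⟩, fun z => z.2.1, ?_, ?_⟩
    · intro φ
      rfl
    · rintro ⟨ρ, φ, hφ⟩
      have : (fun v => (φ v).1) = ρ := funext hφ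
      subst this
      rfl
  rw [key X, key Y]
  exact Finset.sum_congr rfl fun ρ _ => card_fixed h𝓕 hK T X Y h ρ

theorem hom_compositional {𝓕 : ∀ n : ℕ, Set (SimpleGraph (Fin n))} (h𝓕 : Hereditary 𝓕) :
    Compositional (HomEquiv 𝓕) where
  iso V W _ _ G H h := by
    obtain ⟨φ⟩ := h
    exact fun n K _ => card_hom_congr_right φ
  symm V W _ _ G H h := fun n K hK => (h n K hK).symm
  trans U V W _ _ _ G H K h h' := fun n L hL => (h n L hL).trans (h' n L hL)
  sub S F _ _ T X Y h := homEquiv_sub h𝓕 T X Y h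

end Run7.h529
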