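import Pool.Agent.H38.NP.Defs

/-!
# Instances of the graph isomorphism problem
-/

set_option autoImplicit false

namespace Run7.h529

open Pool.Agent.H38.NP

/-- a pair of graphs, each given by the number of its vertices and a list of edges -/
abbrev Inst : Type := (ℕ × List (ℕ × ℕ)) × (ℕ × List (ℕ × ℕ))

/-- the first graph of an instance -/
def gr1 (p : Inst) : SimpleGraph (Fin p.1.1) := graphOf p.1.1 p.1.2

/-- the second graph of an instance -/
def gr2 (p : Inst) : SimpleGraph (Fin p.2.1) := graphOf p.2.1 p.2.2

/-- the two graphs of the instance are isomorphic -/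
def Iso (p : Inst) : Prop := Nonempty (gr1 p ≃g gr2 p)

/-- Graph isomorphism restricted to the class `C` of instances is as hard as in general: there is a
polynomial-time computable function with values in `C` that preserves and reflects isomorphism;
the problem restricted to `C` is in P if and only if the general one is, and the same is true for
NP-hardness. -/
def AsHardAsGI (C : Inst → Prop) : Prop :=
  (∃ f : Inst → Inst, PolyTimeOn (fun _ => True) f ∧ ∀ p, C (f p) ∧ (Iso p ↔ Iso (f p))) ∧
  (InPOn C Iso ↔ InPOn (fun _ => True) Iso) ∧
  (NPHardOn C Iso ↔ NPHardOn (fun _ => True) Iso)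

end Run7.h529
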