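import Pool.Agent.H642R2.TMSim
import Pool.Agent.Run7.h529.IsoDefs

/-!
# Consequences of a reduction
-/

set_option autoImplicit false

namespace Run7.h529

open Pool.Agent.H38.NP

theorem asHard_of {C : Inst → Prop} (f : Inst → Inst) (hf : PolyTimeOn (fun _ => True) f)
    (h : ∀ p, C (f p) ∧ (Iso p ↔ Iso (f p))) : AsHardAsGI C := by
  refine ⟨⟨f, hf, h⟩, ?_, ?_⟩
  · obtain ⟨g, hg, hg'⟩ := hf
    constructor
    · rintro ⟨d, hd, hd'⟩
      refine ⟨fun x => d (g x), Pool.Agent.H642R2.TMSim.polyTime_comp hd hg, fun p _ => ?_⟩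
      rw [(h p).2, hd' (f p) (h p).1]
      show d (enc (f p)) = [true] ↔ d (g (enc p)) = [true]
      rw [hg' p trivial]
    · rintro ⟨d, hd, hd'⟩
      exact ⟨d, hd, fun p _ => hd' p trivial⟩
  · obtain ⟨g, hg, hg'⟩ := hf
    constructor
    · intro H A hA
      obtain ⟨d, hd, hd'⟩ := H A hA
      refine ⟨d, hd, fun x => ?_⟩
      obtain ⟨a, h1, _, h3⟩ := hd' x
      exact ⟨a, h1, trivial, h3⟩
    · intro H A hA
      obtain ⟨d, hd, hd'⟩ := H A hA
      refine ⟨fun x => g (d x), Pool.Agent.H642R2.TMSim.polyTime_comp hg hd, fun x => ?_⟩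
      obtain ⟨a, h1, _, h3⟩ := hd' x
      exact ⟨f a, (congrArg g h1).trans (hg' a trivial), (h a).1, h3.trans (h a).2⟩

end Run7.h529
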