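import Mathlib

/-!
The isolated points of a set of bit vectors all of whose non-members have reasons of at most `t`
bits (the satisfiability coding lemma of Paturi, Pudlák and Zane).
-/

set_option autoImplicit false

namespace Run7.h529

open Finset

variable {V : Type} [Fintype V] [DecidableEq V]

/-- among the elements of `T`, the element `i` comes last in a fraction at least `1 / t` of the
orders -/
theorem last_count (N t : ℕ) (T : Finset V) (i : V) (hi : i ∈ T) (hT : T.card ≤ t) :
    Fintype.card (V ≃ Fin N) ≤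
      t * (univ.filter fun σ : V ≃ Fin N => ∀ j ∈ T, j ≠ i → σ j < σ i).card := by
  classical
  set A : V → Finset (V ≃ Fin N) := fun k => univ.filter fun σ => ∀ j ∈ T, j ≠ k → σ j < σ k
    with hA
  have h1 : (univ : Finset (V ≃ Fin N)) ⊆ T.biUnion A := by
    intro σ _
    obtain ⟨k, hk, hmax⟩ := T.exists_max_image σ ⟨i, hi⟩
    rw [mem_biUnion]
    refine ⟨k, hk, ?_⟩
    simp only [hA, mem_filter, mem_univ, true_and]
    intro j hj hjk
    exact lt_of_le_of_ne (hmax j hj) fun h => hjk (σ.injective h)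
  have h2 : ∀ k ∈ T, (A k).card ≤ (A i).card := by
    intro k hk
    refine card_le_card_of_injOn (fun σ => (Equiv.swap i k).trans σ) ?_ ?_
    · intro σ hσ
      simp only [hA, coe_filter, mem_univ, true_and, Set.mem_ofPred_eq] at hσ ⊢
      intro j hj hji
      simp only [Equiv.trans_apply, Equiv.swap_apply_left]
      apply hσ
      · by_cases h : j = k
        · rw [h, Equiv.swap_apply_right]; exact hi
        · rw [Equiv.swap_apply_of_ne_of_ne hji h]; exact hj
      · intro h
        apply hji
        have := congrArg (Equiv.swap i k) h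
        rwa [Equiv.swap_apply_self, Equiv.swap_apply_right] at this
    · intro σ _ τ _ h
      apply Equiv.ext
      intro x
      have := congrArg (fun e : V ≃ Fin N => e (Equiv.swap i k x)) h
      simpa using this
  calc Fintype.card (V ≃ Fin N) = (univ : Finset (V ≃ Fin N)).card := (card_univ).symm
    _ ≤ (T.biUnion A).card := card_le_card h1
    _ ≤ ∑ k ∈ T, (A k).card := card_biUnion_le
    _ ≤ ∑ _k ∈ T, (A i).card := sum_le_sum h2
    _ = T.card * (A i).card := by rw [sum_const, smul_eq_mul]
    _ ≤ t * (A i).card := Nat.mul_le_mul_right _ hT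

/-- the vector `z` with the bit `i` changed -/
def flip (z : V → Bool) (i : V) : V → Bool := Function.update z i (!z i)

theorem flip_same (z : V → Bool) (i : V) : flip z i i = !z i := by simp [flip]

theorem flip_ne (z : V → Bool) {i j : V} (h : j ≠ i) : flip z i j = z j := by simp [flip, h]

/-- the forced positions -/
def forced {N : ℕ} (T : V → Finset V) (σ : V ≃ Fin N) : Finset V :=
  univ.filter fun i => ∀ j ∈ T i, j ≠ i → σ j < σ i

theorem card_agree (z : V → Bool) (D : Finset V) :
    (univ.filter fun r : V → Bool => ∀ i, i ∉ D → r i = z i).card = 2 ^ D.card := by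
  classical
  have : (univ.filter fun r : V → Bool => ∀ i, i ∉ D → r i = z i) =
      Fintype.piFinset (fun i => if i ∈ D then (univ : Finset Bool) else {z i}) := by
    ext r
    simp only [mem_filter, mem_univ, true_and, Fintype.mem_piFinset]
    refine forall_congr' fun i => ?_
    by_cases h : i ∈ D <;> simp [h]
  rw [this, Fintype.card_piFinset]
  have h2 : ∀ i : V, (if i ∈ D then (univ : Finset Bool) else {z i}).card =
      if i ∈ D then 2 else 1 := by
    intro i
    by_cases h : i ∈ D <;> simp [h]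
  rw [prod_congr rfl fun i _ => h2 i, prod_ite]
  simp

/-- The coding lemma for a fixed order. -/
theorem coding {N : ℕ} (S : Finset (V → Bool)) (T : (V → Bool) → V → Finset V)
    (hT : ∀ z ∈ S, ∀ i, ∀ z' : V → Bool, (∀ j ∈ T z i, z' j = flip z i j) → z' ∉ S)
    (σ : V ≃ Fin N) :
    ∑ z ∈ S, 2 ^ (forced (T z) σ).card ≤ 2 ^ Fintype.card V := by
  classical
  have hdis : (S : Set (V → Bool)).PairwiseDisjoint fun z =>
      univ.filter fun r : V → Bool => ∀ i, i ∉ forced (T z) σ → r i = z i := by
    have key : ∀ z ∈ S, ∀ z' ∈ S, ∀ i, z i ≠ z' i → (∀ j, σ j < σ i → z j = z' j) →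
        ∀ r : V → Bool, r i ≠ z i → (∀ i, i ∉ forced (T z) σ → r i = z i) → False := by
      intro z hz z' hz' i hi hlt r hr hrz
      have hD : i ∈ forced (T z) σ := by
        by_contra h
        exact hr (hrz i h)
      simp only [forced, mem_filter, mem_univ, true_and] at hD
      refine hT z hz i z' ?_ hz'
      intro j hj
      by_cases hji : j = i
      · subst hji
        rw [flip_same]
        revert hi
        cases z j <;> cases z' j <;> simp
      · rw [flip_ne z hji]
        exact (hlt j (hD j hj hji)).symm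
    intro z hz z' hz' hne
    rw [Function.onFun, Finset.disjoint_left]
    intro r hr hr'
    simp only [mem_filter, mem_univ, true_and] at hr hr'
    have hex : (univ.filter fun i => z i ≠ z' i).Nonempty := by
      by_contra h
      rw [not_nonempty_iff_eq_empty] at h
      apply hne
      funext i
      by_contra h2
      have : i ∈ univ.filter fun i => z i ≠ z' i := by simp [h2]
      rw [h] at this
      exact absurd this (notMem_empty i)
    obtain ⟨i, hi, hmin⟩ := exists_min_image _ σ hex
    simp only [mem_filter, mem_univ, true_and] at hi hmin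
    have hlt : ∀ j, σ j < σ i → z j = z' j := by
      intro j hj
      by_contra h
      exact absurd (hmin j h) (not_le.2 hj)
    by_cases h1 : r i = z i
    · have h2 : r i ≠ z' i := fun h => hi (h1.symm.trans h)
      exact key z' hz' z hz i (Ne.symm hi) (fun j hj => (hlt j hj).symm) r h2 hr'
    · exact key z hz z' hz' i hi hlt r h1 hr
  calc ∑ z ∈ S, 2 ^ (forced (T z) σ).card
      = ∑ z ∈ S, (univ.filter fun r : V → Bool => ∀ i, i ∉ forced (T z) σ → r i = z i).card :=
        sum_congr rfl fun z _ => (card_agree z _).symm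
    _ = (S.biUnion fun z => univ.filter fun r : V → Bool =>
          ∀ i, i ∉ forced (T z) σ → r i = z i).card := (card_biUnion hdis).symm
    _ ≤ (univ : Finset (V → Bool)).card := card_le_card (subset_univ _)
    _ = 2 ^ Fintype.card V := by simp [card_univ]

/-- **The satisfiability coding lemma.** If for every member `z` of `S` and every bit `i` there
are at most `t` bits of `z` with the bit `i` changed which show that a vector is not in `S`, then
`S` has at most `2 ^ (N - N / t)` members, where `N` is the number of bits. -/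
theorem ppz (t : ℕ) (ht : 1 ≤ t) (S : Finset (V → Bool)) (T : (V → Bool) → V → Finset V)
    (hcard : ∀ z ∈ S, ∀ i, (T z i).card ≤ t)
    (hT : ∀ z ∈ S, ∀ i, ∀ z' : V → Bool, (∀ j ∈ T z i, z' j = flip z i j) → z' ∉ S) :
    (S.card : ℝ) * (2 : ℝ) ^ ((Fintype.card V : ℝ) / t) ≤ 2 ^ Fintype.card V := by
  classical
  set N := Fintype.card V with hN
  have ht0 : (0 : ℝ) < t := by exact_mod_cast ht
  have hmem : ∀ z ∈ S, ∀ i, i ∈ T z i := by
    intro z hz i
    by_contra h
    refine hT z hz i z ?_ hz
    intro j hj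
    have hji : j ≠ i := by
      rintro rfl
      exact h hj
    rw [flip_ne z hji]
  set F : ℝ := (Fintype.card (V ≃ Fin N) : ℝ) with hF
  have hF0 : 0 < F := by
    have : Nonempty (V ≃ Fin N) := ⟨Fintype.equivFin V⟩
    rw [hF]
    exact_mod_cast Fintype.card_pos
  have h1 : ∑ z ∈ S, ∑ σ : V ≃ Fin N, (2 : ℝ) ^ ((forced (T z) σ).card : ℝ) ≤ F * 2 ^ N := by
    rw [sum_comm]
    calc ∑ σ : V ≃ Fin N, ∑ z ∈ S, (2 : ℝ) ^ ((forced (T z) σ).card : ℝ)
        ≤ ∑ _σ : V ≃ Fin N, (2 : ℝ) ^ N := by
          apply sum_le_sum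
          intro σ _
          have := coding S T hT σ
          have h2 : ((∑ z ∈ S, 2 ^ (forced (T z) σ).card : ℕ) : ℝ) ≤ ((2 ^ N : ℕ) : ℝ) := by
            exact_mod_cast this
          push_cast at h2
          refine le_trans (le_of_eq ?_) h2
          exact sum_congr rfl fun z _ => Real.rpow_natCast 2 _
      _ = F * 2 ^ N := by rw [sum_const, card_univ, nsmul_eq_mul]
  have h2 : ∀ z ∈ S, F * (2 : ℝ) ^ ((N : ℝ) / t) ≤
      ∑ σ : V ≃ Fin N, (2 : ℝ) ^ ((forced (T z) σ).card : ℝ) := by
    intro z hz
    have hsum : (N : ℝ) / t ≤ ∑ σ : V ≃ Fin N, (1 / F) * ((forced (T z) σ).card : ℝ) := by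
      rw [← mul_sum]
      have e1 : ∑ σ : V ≃ Fin N, ((forced (T z) σ).card : ℝ) =
          ∑ i : V, ((univ.filter fun σ : V ≃ Fin N => ∀ j ∈ T z i, j ≠ i → σ j < σ i).card : ℝ) := by
        have : ∑ σ : V ≃ Fin N, (forced (T z) σ).card =
            ∑ i : V, (univ.filter fun σ : V ≃ Fin N => ∀ j ∈ T z i, j ≠ i → σ j < σ i).card := by
          simp only [forced, card_filter]
          exact sum_comm
        exact_mod_cast this
      rw [e1]
      have e2 : ∀ i : V, F / t ≤
          ((univ.filter fun σ : V ≃ Fin N => ∀ j ∈ T z i, j ≠ i → σ j < σ i).card : ℝ) := by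
        intro i
        rw [div_le_iff₀ ht0, hF, mul_comm]
        exact_mod_cast last_count N t (T z i) i (hmem z hz i) (hcard z hz i)
      have e3 : (N : ℝ) * (F / t) ≤
          ∑ i : V, ((univ.filter fun σ : V ≃ Fin N => ∀ j ∈ T z i, j ≠ i → σ j < σ i).card : ℝ) := by
        calc (N : ℝ) * (F / t) = ∑ _i : V, F / t := by
              rw [sum_const, card_univ, nsmul_eq_mul]
          _ ≤ _ := sum_le_sum fun i _ => e2 i
      calc (N : ℝ) / t = (1 / F) * ((N : ℝ) * (F / t)) := by field_simp
        _ ≤ _ := mul_le_mul_of_nonneg_left e3 (by positivity)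
    have hconv : ConvexOn ℝ Set.univ fun x : ℝ => (2 : ℝ) ^ x := by
      have e : (fun x : ℝ => (2 : ℝ) ^ x) = Real.exp ∘ fun x : ℝ => (Real.log 2) • x := by
        funext x
        simp [Real.rpow_def_of_pos (by norm_num : (0 : ℝ) < 2)]
      rw [e]
      exact convexOn_exp.comp_linearMap (Real.log 2 • (LinearMap.id : ℝ →ₗ[ℝ] ℝ))
    have hj := hconv.map_sum_le (t := (univ : Finset (V ≃ Fin N))) (w := fun _ => 1 / F)
      (p := fun σ => ((forced (T z) σ).card : ℝ)) (fun _ _ => by positivity)
      (by rw [sum_const, card_univ, nsmul_eq_mul, ← hF]; field_simp) (fun _ _ => Set.mem_univ _)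
    simp only [smul_eq_mul] at hj
    have h3 : (2 : ℝ) ^ ((N : ℝ) / t) ≤
        ∑ σ : V ≃ Fin N, 1 / F * (2 : ℝ) ^ ((forced (T z) σ).card : ℝ) :=
      (Real.rpow_le_rpow_of_exponent_le (by norm_num) hsum).trans hj
    rw [← mul_sum] at h3
    calc F * (2 : ℝ) ^ ((N : ℝ) / t)
        ≤ F * (1 / F * ∑ σ : V ≃ Fin N, (2 : ℝ) ^ ((forced (T z) σ).card : ℝ)) :=
          mul_le_mul_of_nonneg_left h3 hF0.le
      _ = _ := by field_simp
  have h3 : (S.card : ℝ) * (F * (2 : ℝ) ^ ((N : ℝ) / t)) ≤ F * 2 ^ N := by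
    refine le_trans ?_ h1
    calc (S.card : ℝ) * (F * (2 : ℝ) ^ ((N : ℝ) / t))
        = ∑ _z ∈ S, F * (2 : ℝ) ^ ((N : ℝ) / t) := by rw [sum_const, nsmul_eq_mul]
      _ ≤ _ := sum_le_sum h2
  have h4 : F * ((S.card : ℝ) * (2 : ℝ) ^ ((N : ℝ) / t)) ≤ F * 2 ^ N := by
    calc F * ((S.card : ℝ) * (2 : ℝ) ^ ((N : ℝ) / t)) =
        (S.card : ℝ) * (F * (2 : ℝ) ^ ((N : ℝ) / t)) := by ring
      _ ≤ _ := h3
  exact le_of_mul_le_mul_left h4 hF0

end Run7.h529
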