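import Mathlib

/-!
# The rook graph and the Shrikhande graph
-/

set_option autoImplicit false

namespace Run7.h529

/-- adjacency on `Fin 16 = ℤ/4 × ℤ/4` (as a Boolean function on numbers): the `4 × 4` rook graph
(`false`) and the Shrikhande graph (`true`) -/
def sadj (b : Bool) (p q : ℕ) : Bool :=
  match b with
  | false => (p != q) && (p / 4 == q / 4 || p % 4 == q % 4)
  | true => [(1, 0), (3, 0), (0, 1), (0, 3), (1, 1), (3, 3)].contains
      ((q / 4 + 4 - p / 4) % 4, (q % 4 + 4 - p % 4) % 4)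

/-- colour of a pair: equal, adjacent, otherwise -/
def scol (b : Bool) (p q : ℕ) : ℕ := if p = q then 0 else if sadj b p q then 1 else 2

/-- the intersection numbers -/
def snum : ℕ → ℕ → ℕ → ℕ
  | 0, 0, 0 => 1
  | 0, 1, 1 => 6
  | 0, 2, 2 => 9
  | 1, 0, 1 => 1
  | 1, 1, 0 => 1
  | 1, 1, 1 => 2
  | 1, 1, 2 => 3
  | 1, 2, 1 => 3
  | 1, 2, 2 => 6
  | 2, 0, 2 => 1
  | 2, 2, 0 => 1
  | 2, 1, 1 => 2
  | 2, 1, 2 => 4
  | 2, 2, 1 => 4
  | 2, 2, 2 => 4
  | _, _, _ => 0

theorem sadj_symm : ∀ b : Bool, ∀ p q : Fin 16, sadj b p q = sadj b q p := by decide +kernel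

theorem sadj_irrefl : ∀ b : Bool, ∀ p : Fin 16, sadj b p p = false := by decide +kernel

theorem scount : ∀ b : Bool, ∀ p q : Fin 16, ∀ i j : Fin 3,
    (Finset.univ.filter fun r : Fin 16 => scol b p r = i ∧ scol b r q = j).card =
      snum (scol b p q) i j := by decide +kernel

theorem rook_clique : sadj false 0 1 ∧ sadj false 0 2 ∧ sadj false 0 3 ∧ sadj false 1 2 ∧
    sadj false 1 3 ∧ sadj false 2 3 := by decide +kernel

theorem shrikhande_no_clique : ∀ a b : Fin 16, sadj true a b = true → ∀ c : Fin 16,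
    sadj true a c = true → sadj true b c = true → ∀ d : Fin 16, sadj true a d = true →
    sadj true b d = true → sadj true c d = false := by decide +kernel

end Run7.h529
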