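import Pool.Agent.Run7.h529.RankDefs
import Pool.Agent.Run7.h529.Comp
import Pool.Agent.Run7.h529.Srg

/-!
# The coherent closure of a substitution of strongly regular graphs
-/

set_option autoImplicit false

namespace Run7.h529

/-- bijections from equal numbers -/
theorem exists_equiv {F K : Type} [Finite F] (f g : F → K)
    (h : ∀ k, {r | f r = k}.ncard = {r | g r = k}.ncard) : ∃ ρ : F ≃ F, ∀ r, g (ρ r) = f r := by
  classical
  have e : ∀ k, Nonempty ({r // f r = k} ≃ {r // g r = k}) := fun k =>
    Finite.card_eq.1 (h k)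
  exact ⟨Equiv.ofFiberEquiv fun k => (e k).some, fun r => Equiv.ofFiberEquiv_map _ r⟩

/-- substitution of permutations -/
noncomputable def mix {S F : Type} (σ : S ≃ S) (ρ : S → (F ≃ F)) : S × F ≃ S × F :=
  Equiv.ofBijective (fun x => (σ x.1, ρ x.1 x.2)) (by
    constructor
    · rintro ⟨e, p⟩ ⟨f, q⟩ hx
      obtain ⟨h1, h2⟩ := Prod.mk.inj hx
      simp only at h1 h2
      have h3 := σ.injective h1
      subst h3
      rw [(ρ e).injective h2]
    · rintro ⟨e, p⟩
      obtain ⟨f, rfl⟩ := σ.surjective e
      obtain ⟨q, rfl⟩ := (ρ f).surjective p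
      exact ⟨(f, q), rfl⟩)

theorem mix_apply {S F : Type} (σ : S ≃ S) (ρ : S → (F ≃ F)) (e : S) (p : F) :
    mix σ ρ (e, p) = (σ e, ρ e p) := rfl

open Classical in
/-- the colouring of a substitution -/
noncomputable def subcol {S F : Type} (T : SimpleGraph S) (x : S → F → F → Fin 3) :
    S × F → S × F → Fin 5 := fun u v =>
  if u.1 = v.1 then Fin.castLE (by norm_num) (x u.1 u.2 v.2) else if T.Adj u.1 v.1 then 3 else 4

/-- The graph has a rank three group of automorphisms. -/
def RankThree {S : Type} (T : SimpleGraph S) : Prop :=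
  ∀ e f e' f', (e = f ↔ e' = f') → (T.Adj e f ↔ T.Adj e' f') → ∃ σ : S ≃ S, σ e = e' ∧ σ f = f' ∧
    ∀ g h, T.Adj (σ g) (σ h) ↔ T.Adj g h

/-- strongly regular colourings with the same parameters -/
structure SrgFamily {S F : Type} (x : S → F → F → Fin 3) : Prop where
  zero : ∀ e p q, x e p q = 0 ↔ p = q
  symm : ∀ e p q, x e p q = x e q p
  equiv : ∀ e e' p q p' q', x e p q = x e' p' q' →
    ∃ ρ : F ≃ F, ∀ r, x e' p' (ρ r) = x e p r ∧ x e' (ρ r) q' = x e r q

variable {S F : Type} {T : SimpleGraph S} {x : S → F → F → Fin 3}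

theorem subcol_same (e : S) (p q : F) :
    subcol T x (e, p) (e, q) = Fin.castLE (by norm_num) (x e p q) := by
  simp [subcol]

theorem subcol_ne {e f : S} (h : e ≠ f) (p q : F) [Decidable (T.Adj e f)] :
    subcol T x (e, p) (f, q) = if T.Adj e f then 3 else 4 := by
  simp [subcol, h]

theorem subcol_lt {e f : S} {p q : F} : (subcol T x (e, p) (f, q)).val < 3 ↔ e = f := by
  classical
  by_cases h : e = f
  · subst h
    rw [subcol_same]
    simp
  · rw [subcol_ne h]
    simp only [h, iff_false, not_lt]
    split_ifs <;> decide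

theorem coherent_sub (hT : RankThree T) (hx : SrgFamily x) : Coherent (subcol T x) := by
  classical
  have hsymm : ∀ u v, subcol T x u v = subcol T x v u := by
    rintro ⟨e, p⟩ ⟨f, q⟩
    by_cases h : e = f
    · subst h
      rw [subcol_same, subcol_same, hx.symm]
    · rw [subcol_ne h, subcol_ne (Ne.symm h), T.adj_comm]
  refine ⟨?_, ?_, ?_⟩
  · rintro ⟨e, p⟩ ⟨f, q⟩ ⟨g, r⟩ h
    rw [subcol_same, (hx.zero e p p).2 rfl] at h
    have h1 : f = g := by
      rw [← subcol_lt (T := T) (x := x) (p := q) (q := r), ← h]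
      decide
    subst h1
    rw [subcol_same] at h
    have h2 : x f q r = 0 := by
      have := congrArg Fin.val h
      simp only [Fin.val_castLE] at this
      exact Fin.ext this.symm
    rw [(hx.zero f q r).1 h2]
  · intro u v u' v' h
    rw [hsymm v u, hsymm v' u', h]
  · rintro ⟨e, p⟩ ⟨f, q⟩ ⟨e', p'⟩ ⟨f', q'⟩ h i j
    have key : ∃ π : S × F ≃ S × F, ∀ w, subcol T x (e', p') (π w) = subcol T x (e, p) w ∧
        subcol T x (π w) (f', q') = subcol T x w (f, q) := by
      have hee : e = f ↔ e' = f' := by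
        rw [← subcol_lt (T := T) (x := x) (p := p) (q := q), h, subcol_lt]
      -- the two permutations
      have hadj : T.Adj e f ↔ T.Adj e' f' := by
        by_cases h1 : e = f
        · have h2 := hee.1 h1
          subst h1; subst h2
          exact ⟨fun h => absurd h (T.loopless.irrefl _), fun h => absurd h (T.loopless.irrefl _)⟩
        · have h2 : e' ≠ f' := fun h3 => h1 (hee.2 h3)
          rw [subcol_ne h1, subcol_ne h2] at h
          by_cases h3 : T.Adj e f <;> by_cases h4 : T.Adj e' f' <;> simp_all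
      obtain ⟨σ, hσe, hσf, hσ⟩ := hT e f e' f' hee hadj
      have hρ : ∃ ρ : S → (F ≃ F), (∀ r, x e' p' (ρ e r) = x e p r) ∧
          (∀ r, x f' (ρ f r) q' = x f r q) := by
        by_cases h1 : e = f
        · have h2 := hee.1 h1
          subst h1; subst h2
          rw [subcol_same, subcol_same] at h
          have h3 : x e p q = x e' p' q' := by
            have := congrArg Fin.val h
            simp only [Fin.val_castLE] at this
            exact Fin.ext this
          obtain ⟨ρ, hρ⟩ := hx.equiv e e' p q p' q' h3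
          exact ⟨fun _ => ρ, fun r => (hρ r).1, fun r => (hρ r).2⟩
        · obtain ⟨ρ1, hρ1⟩ := hx.equiv e e' p p p' p' (by
            rw [(hx.zero _ _ _).2 rfl, (hx.zero _ _ _).2 rfl])
          obtain ⟨ρ2, hρ2⟩ := hx.equiv f f' q q q' q' (by
            rw [(hx.zero _ _ _).2 rfl, (hx.zero _ _ _).2 rfl])
          refine ⟨fun g => if g = e then ρ1 else ρ2, fun r => ?_, fun r => ?_⟩
          · simp only [if_true]; exact (hρ1 r).1
          · simp only [Ne.symm h1, if_false]; exact (hρ2 r).2
      obtain ⟨ρ, hρ1, hρ2⟩ := hρ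
      refine ⟨mix σ ρ, ?_⟩
      rintro ⟨g, r⟩
      rw [mix_apply]
      constructor
      · by_cases hg : e = g
        · subst hg
          rw [hσe, subcol_same, subcol_same, hρ1]
        · have hg' : e' ≠ σ g := fun h3 => hg (σ.injective (hσe.trans h3))
          rw [subcol_ne hg, subcol_ne hg', ← hσe, hσ]
      · by_cases hg : g = f
        · subst hg
          rw [hσf, subcol_same, subcol_same, hρ2]
        · have hg' : σ g ≠ f' := fun h3 => hg (σ.injective (h3.trans hσf.symm))
          rw [subcol_ne hg, subcol_ne hg', ← hσf, hσ]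
    obtain ⟨π, hπ⟩ := key
    have : {w | subcol T x (e', p') w = i ∧ subcol T x w (f', q') = j} =
        π '' {w | subcol T x (e, p) w = i ∧ subcol T x w (f, q) = j} := by
      ext w
      constructor
      · rintro ⟨h1, h2⟩
        refine ⟨π.symm w, ⟨?_, ?_⟩, by simp⟩
        · rw [← (hπ _).1]; simpa using h1
        · rw [← (hπ _).2]; simpa using h2
      · rintro ⟨w, ⟨h1, h2⟩, rfl⟩
        exact ⟨(hπ w).1.trans h1, (hπ w).2.trans h2⟩
    rw [this, Set.ncard_image_of_injective _ π.injective]

/-- a coherent configuration determines all numbers of vertices with a property of two colours -/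
theorem Coherent.count_of {W κ : Type} [Finite W] {c : W → W → κ} (hc : Coherent c)
    (P : κ → κ → Prop) {u v u' v' : W} (h : c u v = c u' v') :
    {w | P (c u w) (c w v)}.ncard = {w | P (c u' w) (c w v')}.ncard := by
  classical
  obtain ⟨ρ, hρ⟩ := exists_equiv (fun w => (c u w, c w v)) (fun w => (c u' w, c w v'))
    (fun k => by
      have := hc.count u v u' v' h k.1 k.2
      have e1 : {r | (c u r, c r v) = k} = {w | c u w = k.1 ∧ c w v = k.2} := by
        ext r; simp [Prod.ext_iff]
      have e2 : {r | (c u' r, c r v') = k} = {w | c u' w = k.1 ∧ c w v' = k.2} := by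
        ext r; simp [Prod.ext_iff]
      rw [e1, e2]
      exact this)
  have : {w | P (c u' w) (c w v')} = ρ '' {w | P (c u w) (c w v)} := by
    ext w
    constructor
    · intro h1
      refine ⟨ρ.symm w, ?_, by simp⟩
      have h2 := Prod.mk.inj (hρ (ρ.symm w))
      simp only [Equiv.apply_symm_apply] at h2
      show P _ _
      rw [← h2.1, ← h2.2]
      exact h1
    · rintro ⟨w, h1, rfl⟩
      have h2 := Prod.mk.inj (hρ w)
      show P _ _
      rw [h2.1, h2.2]
      exact h1
  rw [this, Set.ncard_image_of_injective _ ρ.injective]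

/-- every coherent configuration that determines adjacency refines the colouring -/
theorem refines_sub [Finite S] [Finite F] [Nonempty F] (hT : Spread T) {X : S → SimpleGraph F}
    (hxX : ∀ e p q, x e p q = 1 ↔ (X e).Adj p q) (hx0 : ∀ e p q, x e p q = 0 ↔ p = q)
    {κ' : Type} (c' : S × F → S × F → κ') (hc : Coherent c') (hr : Respects c' (sub T X))
    (u v u' v' : S × F) (h : c' u v = c' u' v') : subcol T x u v = subcol T x u' v' := by
  classical
  have hadj : (sub T X).Adj u v ↔ (sub T X).Adj u' v' := hr _ _ _ _ h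
  have heq : u = v ↔ u' = v' := by
    constructor
    · rintro rfl
      exact hc.diag u u' v' h
    · rintro rfl
      exact hc.diag u' u v h.symm
  have hslot : u.1 = v.1 ↔ u'.1 = v'.1 := by
    rw [same_iff hT X, same_iff hT X]
    have h1 := hc.count_of (fun k k' => ¬ ((∃ a b, c' a b = k ∧ (sub T X).Adj a b) ↔
      (∃ a b, c' a b = k' ∧ (sub T X).Adj a b))) h
    have e : ∀ a b, (∃ a' b', c' a' b' = c' a b ∧ (sub T X).Adj a' b') ↔ (sub T X).Adj a b := by
      intro a b
      constructor
      · rintro ⟨a', b', h1, h2⟩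
        exact (hr _ _ _ _ h1).1 h2
      · exact fun h => ⟨a, b, rfl, h⟩
    have e2 : ∀ u v : S × F, {w | ¬ ((∃ a b, c' a b = c' u w ∧ (sub T X).Adj a b) ↔
        (∃ a b, c' a b = c' w v ∧ (sub T X).Adj a b))} = sepset (sub T X) u v := by
      intro u v
      ext w
      show ¬ (_ ↔ _) ↔ ¬ (_ ↔ _)
      rw [e, e, (sub T X).adj_comm w v]
    simp only [e2] at h1
    rw [h1]
  obtain ⟨e, p⟩ := u
  obtain ⟨f, q⟩ := v
  obtain ⟨e', p'⟩ := u'
  obtain ⟨f', q'⟩ := v'
  simp only at hslot
  by_cases h1 : e = f
  · have h2 := hslot.1 h1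
    subst h1; subst h2
    rw [sub_adj_eq, sub_adj_eq, ← hxX, ← hxX] at hadj
    have heq' : p = q ↔ p' = q' := by simpa using heq
    rw [← hx0 e, ← hx0 e'] at heq'
    rw [subcol_same, subcol_same]
    congr 1
    generalize x e p q = a at *
    generalize x e' p' q' = b at *
    revert hadj heq'
    revert a b
    decide
  · have h2 : e' ≠ f' := fun h3 => h1 (hslot.2 h3)
    rw [sub_adj_ne h1, sub_adj_ne h2] at hadj
    rw [subcol_ne h1, subcol_ne h2]
    simp only [hadj]

end Run7.h529
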