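import Mathlib

/-!
# Graphs whose coherent closure is a symmetric association scheme of rank 5
-/

set_option autoImplicit false

namespace Run7.h529

/-- The colouring `c` of the ordered pairs of elements of `W` is a coherent configuration: loops
have other colours than pairs of different elements, the colour of `(u, v)` determines the colour
of `(v, u)`, and the number of the `w` such that `(u, w)` has the colour `i` and `(w, v)` has the
colour `j` depends only on `i`, `j` and the colour of `(u, v)`. -/
structure Coherent {W κ : Type} (c : W → W → κ) : Prop where
  diag : ∀ u v w, c u u = c v w → v = w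
  swap : ∀ u v u' v', c u v = c u' v' → c v u = c v' u'
  count : ∀ u v u' v', c u v = c u' v' → ∀ i j,
    {w | c u w = i ∧ c w v = j}.ncard = {w | c u' w = i ∧ c w v' = j}.ncard

/-- Adjacency in `G` is determined by the colour. -/
def Respects {W κ : Type} (c : W → W → κ) (G : SimpleGraph W) : Prop :=
  ∀ u v u' v', c u v = c u' v' → (G.Adj u v ↔ G.Adj u' v')

/-- `c` is the coherent closure of the graph `G` (the stable colouring of the pairs of vertices
computed by the two-dimensional Weisfeiler-Leman method): the coarsest coherent configuration that
determines the adjacency in `G`. -/
def IsClosure {W κ : Type} (G : SimpleGraph W) (c : W → W → κ) : Prop :=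
  Coherent c ∧ Respects c G ∧ ∀ (κ' : Type) (c' : W → W → κ'), Coherent c' → Respects c' G →
    ∀ u v u' v', c' u v = c' u' v' → c u v = c u' v'

/-- The coherent closure of `G` is a symmetric association scheme of rank 5: it has exactly five
colours, it is symmetric and all loops have the same colour. -/
def RankFive {W : Type} (G : SimpleGraph W) : Prop :=
  ∃ c : W → W → Fin 5, IsClosure G c ∧ (∀ i, ∃ u v, c u v = i) ∧ (∀ u v, c u v = c v u) ∧
    ∀ u v, c u u = c v v

end Run7.h529
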