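import Pool.Agent.Run7.h529.Rank

/-!
# The graphs `comp` have rank five
-/

set_option autoImplicit false

namespace Run7.h529

theorem perm_ext {V : Type} (k : ℕ) (x y : Fin k → V) (hx : Function.Injective x)
    (hy : Function.Injective y) : ∃ τ : Equiv.Perm V, ∀ i, τ (x i) = y i := by
  have := Equiv.Perm.isMultiplyPretransitive V k
  obtain ⟨g, hg⟩ := MulAction.exists_smul_eq (Equiv.Perm V) (⟨x, hx⟩ : Fin k ↪ V) ⟨y, hy⟩
  refine ⟨g, fun i => ?_⟩
  have := congrArg (fun z : Fin k ↪ V => z i) hg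
  exact this

theorem inj2 {V : Type} {a b : V} (h : a ≠ b) : Function.Injective ![a, b] := by
  have h' := h.symm
  intro i j hij
  fin_cases i <;> fin_cases j <;> simp_all

theorem inj3 {V : Type} {a b c : V} (h1 : a ≠ b) (h2 : a ≠ c) (h3 : b ≠ c) :
    Function.Injective ![a, b, c] := by
  have h1' := h1.symm
  have h2' := h2.symm
  have h3' := h3.symm
  intro i j hij
  fin_cases i <;> fin_cases j <;> simp_all

theorem inj4 {V : Type} {a b c d : V} (h1 : a ≠ b) (h2 : a ≠ c) (h3 : b ≠ c) (h4 : a ≠ d)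
    (h5 : b ≠ d) (h6 : c ≠ d) : Function.Injective ![a, b, c, d] := by
  have h1' := h1.symm
  have h2' := h2.symm
  have h3' := h3.symm
  have h4' := h4.symm
  have h5' := h5.symm
  have h6' := h6.symm
  intro i j hij
  fin_cases i <;> fin_cases j <;> simp_all

theorem pr_with {V : Type} {e : Pr V} {v : V} (h : v ∈ e.1) : ∃ a, ∃ h : v ≠ a, e = mkp v a h := by
  obtain ⟨a, b, hab, rfl⟩ := pr_cases e
  rw [mem_mkp] at h
  rcases h with rfl | rfl
  · exact ⟨b, hab, rfl⟩
  · refine ⟨a, hab.symm, Subtype.ext Sym2.eq_swap⟩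

theorem tri_rankThree (V : Type) : RankThree (tri V) := by
  classical
  have main : ∀ (e f e' f' : Pr V) (τ : Equiv.Perm V), e.1.map τ = e'.1 → f.1.map τ = f'.1 →
      ∃ σ : Pr V ≃ Pr V, σ e = e' ∧ σ f = f' ∧ ∀ g h, (tri V).Adj (σ g) (σ h) ↔ (tri V).Adj g h := by
    intro e f e' f' τ h1 h2
    obtain ⟨ψ, hψ⟩ := triMap τ
    exact ⟨ψ.toEquiv, Subtype.ext ((hψ e).trans h1), Subtype.ext ((hψ f).trans h2),
      fun g h => ψ.map_adj_iff⟩
  intro e f e' f' h1 h2
  by_cases hef : e = f
  · have hef' := h1.1 hef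
    subst hef; subst hef'
    obtain ⟨a, b, hab, rfl⟩ := pr_cases e
    obtain ⟨a', b', hab', rfl⟩ := pr_cases e'
    obtain ⟨τ, hτ⟩ := perm_ext 2 ![a, b] ![a', b'] (inj2 hab) (inj2 hab')
    have t0 : τ a = a' := hτ 0
    have t1 : τ b = b' := hτ 1
    refine main _ _ _ _ τ ?_ ?_ <;> simp [mkp, t0, t1]
  · by_cases hadj : (tri V).Adj e f
    · obtain ⟨_, v, hv1, hv2⟩ := id hadj
      obtain ⟨_, v', hv1', hv2'⟩ := id (h2.1 hadj)
      obtain ⟨a, ha, rfl⟩ := pr_with hv1
      obtain ⟨b, hb, rfl⟩ := pr_with hv2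
      obtain ⟨a', ha', rfl⟩ := pr_with hv1'
      obtain ⟨b', hb', rfl⟩ := pr_with hv2'
      have hab : a ≠ b := by rintro rfl; exact hef rfl
      have hab' : a' ≠ b' := by rintro rfl; exact hef (h1.2 rfl)
      obtain ⟨τ, hτ⟩ := perm_ext 3 ![v, a, b] ![v', a', b'] (inj3 ha hb hab) (inj3 ha' hb' hab')
      have t0 : τ v = v' := hτ 0
      have t1 : τ a = a' := hτ 1
      have t2 : τ b = b' := hτ 2
      refine main _ _ _ _ τ ?_ ?_ <;> simp [mkp, t0, t1, t2]
    · have hef' : e' ≠ f' := fun h => hef (h1.2 h)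
      have hadj' : ¬ (tri V).Adj e' f' := fun h => hadj (h2.2 h)
      obtain ⟨a, b, hab, rfl⟩ := pr_cases e
      obtain ⟨c, d, hcd, rfl⟩ := pr_cases f
      obtain ⟨a', b', hab', rfl⟩ := pr_cases e'
      obtain ⟨c', d', hcd', rfl⟩ := pr_cases f'
      rw [tri_adj_mkp] at hadj hadj'
      simp only [hef, hef', ne_eq, not_false_eq_true, true_and, not_or] at hadj hadj'
      obtain ⟨g1, g2, g3, g4⟩ := hadj
      obtain ⟨g1', g2', g3', g4'⟩ := hadj'
      obtain ⟨τ, hτ⟩ := perm_ext 4 ![a, b, c, d] ![a', b', c', d']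
        (inj4 hab g1 g3 g2 g4 hcd) (inj4 hab' g1' g3' g2' g4' hcd')
      have t0 : τ a = a' := hτ 0
      have t1 : τ b = b' := hτ 1
      have t2 : τ c = c' := hτ 2
      have t3 : τ d = d' := hτ 3
      refine main _ _ _ _ τ ?_ ?_ <;> simp [mkp, t0, t1, t2, t3]

/-- the rook graph (`false`) and the Shrikhande graph (`true`) -/
def srg16 (b : Bool) : SimpleGraph (Fin 16) where
  Adj p q := sadj b p q = true
  symm := ⟨fun p q h => by rw [sadj_symm b q p]; exact h⟩
  loopless := ⟨fun p h => by rw [sadj_irrefl b p] at h; exact Bool.noConfusion h⟩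

theorem srg16_not_iso : IsEmpty (srg16 true ≃g srg16 false) := by
  constructor
  intro φ
  obtain ⟨h1, h2, h3, h4, h5, h6⟩ := rook_clique
  have k : ∀ a b : Fin 16, sadj false a b = true → sadj true (φ.symm a) (φ.symm b) = true := by
    intro a b h
    have : (srg16 false).Adj a b := h
    exact φ.symm.map_adj_iff.2 this
  have := shrikhande_no_clique _ _ (k 0 1 h1) _ (k 0 2 h2) (k 1 2 h4) _ (k 0 3 h3) (k 1 3 h5)
  rw [k 2 3 h6] at this
  exact Bool.noConfusion this

theorem scol_lt (b : Bool) (p q : ℕ) : scol b p q < 3 := by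
  unfold scol
  split_ifs <;> norm_num

/-- colours as elements of `Fin 3` -/
def fcol (b : Bool) (p q : Fin 16) : Fin 3 := ⟨scol b p q, scol_lt b p q⟩

theorem fcol_zero (b : Bool) (p q : Fin 16) : fcol b p q = 0 ↔ p = q := by
  unfold fcol scol
  rw [Fin.ext_iff, Fin.ext_iff]
  simp only [Fin.val_zero]
  split_ifs with h1 h2 <;> simp_all

theorem fcol_one (b : Bool) (p q : Fin 16) : fcol b p q = 1 ↔ (srg16 b).Adj p q := by
  unfold fcol scol
  rw [Fin.ext_iff]
  show _ ↔ sadj b p q = true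
  have h0 : ((1 : Fin 3) : ℕ) = 1 := rfl
  simp only [h0]
  split_ifs with h1 h2
  · have : p = q := Fin.ext h1
    subst this
    simp [sadj_irrefl]
  · simp [h2]
  · simp [h2]

theorem fcol_family {S : Type} (b : S → Bool) : SrgFamily (F := Fin 16) fun e => fcol (b e) where
  zero e p q := fcol_zero _ p q
  symm e p q := by
    apply Fin.ext
    show scol (b e) p q = scol (b e) q p
    unfold scol
    rw [sadj_symm (b e) p q]
    simp only [eq_comm]
  equiv e e' p q p' q' h := by
    classical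
    have hcount : ∀ b : Bool, ∀ p q : Fin 16, ∀ k : Fin 3 × Fin 3,
        {r | (fcol b p r, fcol b r q) = k}.ncard = snum (scol b p q) k.1 k.2 := by
      intro b p q k
      rw [← scount b p q k.1 k.2, Set.ncard_eq_toFinset_card']
      congr 1
      ext r
      simp [fcol, Prod.ext_iff, Fin.ext_iff]
    obtain ⟨ρ, hρ⟩ := exists_equiv (fun r => (fcol (b e) p r, fcol (b e) r q))
      (fun r => (fcol (b e') p' r, fcol (b e') r q')) (fun k => by
        rw [hcount, hcount]
        have : scol (b e) p q = scol (b e') p' q' := congrArg Fin.val h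
        rw [this])
    exact ⟨ρ, fun r => Prod.mk.inj (hρ r)⟩

theorem rankFive_comp {V : Type} [Finite V] (hV : 5 ≤ Nat.card V) (G : SimpleGraph V) :
    RankFive (comp (srg16 true) (srg16 false) G) := by
  classical
  let b : Pr V → Bool := fun e => decide (e.1 ∈ G.edgeSet)
  let x : Pr V → Fin 16 → Fin 16 → Fin 3 := fun e => fcol (b e)
  have hx : SrgFamily x := fcol_family b
  have hcoh : Coherent (subcol (tri V) x) := coherent_sub (tri_rankThree V) hx
  have hX : ∀ (e : Pr V) (p q : Fin 16), x e p q = 1 ↔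
      (if e.1 ∈ G.edgeSet then srg16 true else srg16 false).Adj p q := by
    intro e p q
    show fcol (b e) p q = 1 ↔ _
    rw [fcol_one]
    by_cases h : e.1 ∈ G.edgeSet <;> simp [b, h]
  -- five points
  obtain ⟨p0, -⟩ := exists_other hV ∅ (by simp)
  obtain ⟨p1, hp1⟩ := exists_other hV {p0} (by simp)
  obtain ⟨p2, hp2⟩ := exists_other hV {p0, p1} (Finset.card_le_two.trans (by norm_num))
  obtain ⟨p3, hp3⟩ := exists_other hV {p0, p1, p2} (Finset.card_le_three.trans (by norm_num))
  simp only [Finset.mem_insert, Finset.mem_singleton, not_or] at hp1 hp2 hp3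
  have h01 : p0 ≠ p1 := fun h => hp1 h.symm
  have h02 : p0 ≠ p2 := fun h => hp2.1 h.symm
  have h23 : p2 ≠ p3 := fun h => hp3.2.2 h.symm
  refine ⟨subcol (tri V) x, ⟨hcoh, ?_, ?_⟩, ?_, ?_, ?_⟩
  · rintro ⟨e, p⟩ ⟨f, q⟩ ⟨e', p'⟩ ⟨f', q'⟩ h
    have hee : e = f ↔ e' = f' := by
      rw [← subcol_lt (T := tri V) (x := x) (p := p) (q := q), h, subcol_lt]
    show (sub (tri V) _).Adj _ _ ↔ (sub (tri V) _).Adj _ _
    by_cases h1 : e = f
    · have h2 := hee.1 h1
      subst h1; subst h2
      rw [subcol_same, subcol_same] at h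
      rw [sub_adj_eq, sub_adj_eq, ← hX, ← hX]
      have h3 : x e p q = x e' p' q' := by
        have := congrArg Fin.val h
        simp only [Fin.val_castLE] at this
        exact Fin.ext this
      rw [h3]
    · have h2 : e' ≠ f' := fun h3 => h1 (hee.2 h3)
      rw [subcol_ne h1, subcol_ne h2] at h
      rw [sub_adj_ne h1, sub_adj_ne h2]
      by_cases h3 : (tri V).Adj e f <;> by_cases h4 : (tri V).Adj e' f' <;> simp_all
  · intro κ' c' hc' hr' u v u' v' h
    exact refines_sub (tri_spread hV) hX (fun e p q => fcol_zero _ p q) c' hc' hr' u v u' v' h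
  · intro i
    have hv : ∀ k : Fin 3, ∃ p q : Fin 16, ∀ b : Bool, fcol b p q = k := by decide +kernel
    by_cases hi : i.val < 3
    · obtain ⟨p, q, hpq⟩ := hv ⟨i.val, hi⟩
      refine ⟨(mkp p0 p1 h01, p), (mkp p0 p1 h01, q), ?_⟩
      rw [subcol_same]
      show Fin.castLE _ (fcol _ p q) = i
      rw [hpq]
      exact Fin.ext rfl
    · have hi' : i = 3 ∨ i = 4 := by
        revert hi
        revert i
        decide
      rcases hi' with rfl | rfl
      · refine ⟨(mkp p0 p1 h01, 0), (mkp p0 p2 h02, 0), ?_⟩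
        have hne : mkp p0 p1 h01 ≠ mkp p0 p2 h02 := by
          intro h
          have : p1 ∈ (mkp p0 p2 h02).1 := h ▸ mem_mkp.2 (Or.inr rfl)
          rw [mem_mkp] at this
          rcases this with h | h
          · exact hp1 h
          · exact hp2.2 h.symm
        rw [subcol_ne hne, if_pos]
        rw [tri_adj_mkp]
        exact ⟨hne, Or.inl rfl⟩
      · refine ⟨(mkp p0 p1 h01, 0), (mkp p2 p3 h23, 0), ?_⟩
        have hne : mkp p0 p1 h01 ≠ mkp p2 p3 h23 := by
          intro h
          have : p0 ∈ (mkp p2 p3 h23).1 := h ▸ mem_mkp.2 (Or.inl rfl)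
          rw [mem_mkp] at this
          rcases this with h | h
          · exact h02 h
          · exact hp3.1 h.symm
        rw [subcol_ne hne, if_neg]
        rw [tri_adj_mkp]
        rintro ⟨-, h | h | h | h⟩
        · exact h02 h
        · exact hp3.1 h.symm
        · exact hp2.2 h.symm
        · exact hp3.2.1 h.symm
  · rintro ⟨e, p⟩ ⟨f, q⟩
    by_cases h : e = f
    · subst h
      rw [subcol_same, subcol_same, hx.symm]
    · rw [subcol_ne h, subcol_ne (Ne.symm h), (tri V).adj_comm]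
  · rintro ⟨e, p⟩ ⟨f, q⟩
    rw [subcol_same, subcol_same, (hx.zero e p p).2 rfl, (hx.zero f q q).2 rfl]

end Run7.h529
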