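import Pool.Agent.Run7.h529.IsoRed
import Pool.Agent.Run7.h529.Enc
import Pool.Agent.Run7.h529.RankMain

/-!
# Graph isomorphism for graphs of rank five
-/

set_option autoImplicit false

namespace Run7.h529

open Pool.Agent.H38.NP

theorem Coherent.comap {W W' κ : Type} {c : W → W → κ} (hc : Coherent c) (φ : W' ≃ W) :
    Coherent fun u v => c (φ u) (φ v) where
  diag u v w h := φ.injective (hc.diag _ _ _ h)
  swap u v u' v' h := hc.swap _ _ _ _ h
  count u v u' v' h i j := by
    have e : ∀ u v, {w | c (φ u) (φ w) = i ∧ c (φ w) (φ v) = j}.ncard =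
        {w | c (φ u) w = i ∧ c w (φ v) = j}.ncard := by
      intro u v
      rw [← Set.ncard_image_of_injective _ φ.injective]
      congr 1
      ext w
      constructor
      · rintro ⟨w, h, rfl⟩
        exact h
      · intro h
        refine ⟨φ.symm w, ?_, by simp⟩
        show c (φ u) (φ (φ.symm w)) = i ∧ c (φ (φ.symm w)) (φ v) = j
        simpa using h
    rw [e, e]
    exact hc.count _ _ _ _ h i j

theorem RankFive.iso {W W' : Type} {G : SimpleGraph W} {H : SimpleGraph W'} (hG : RankFive G)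
    (φ : H ≃g G) : RankFive H := by
  obtain ⟨c, ⟨h1, h2, h3⟩, h4, h5, h6⟩ := hG
  refine ⟨fun u v => c (φ u) (φ v), ⟨h1.comap φ.toEquiv, ?_, ?_⟩, ?_, ?_, ?_⟩
  · intro u v u' v' h
    rw [← φ.map_adj_iff, ← φ.map_adj_iff]
    exact h2 _ _ _ _ h
  · intro κ' c' hc' hr' u v u' v' h
    have h7 := h3 κ' (fun u v => c' (φ.symm u) (φ.symm v)) (hc'.comap φ.symm.toEquiv) (by
      intro u v u' v' h
      rw [← φ.symm.map_adj_iff, ← φ.symm.map_adj_iff]
      exact hr' _ _ _ _ h) (φ u) (φ v) (φ u') (φ v')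
    apply h7
    simpa using h
  · intro i
    obtain ⟨u, v, h⟩ := h4 i
    exact ⟨φ.symm u, φ.symm v, by simpa using h⟩
  · exact fun u v => h5 _ _
  · exact fun u v => h6 _ _

/-- **Graph isomorphism is complete for graphs of rank five.** -/
theorem rankFive_hard : AsHardAsGI fun p => RankFive (gr1 p) ∧ RankFive (gr2 p) := by
  classical
  let g := encG 16 (adjList (srg16 true)) (adjList (srg16 false))
  have hg : PT g := PT_encG _ _ _
  have hrank : ∀ x : ℕ × List (ℕ × ℕ), RankFive (graphOf (g x).1 (g x).2) := by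
    intro x
    obtain ⟨φ⟩ := encG_iso (srg16 true) (srg16 false) x.1 x.2
    exact (rankFive_comp (V := Fin (x.1 + 5)) (by simp) _).iso φ
  refine asHard_of (fun p => (g p.1, g p.2)) ?_ fun p => ⟨⟨hrank _, hrank _⟩, ?_⟩
  · have h1 : PT fun p : Inst => g p.1 := hg.comp (g := fun p : Inst => p.1) (by fun_prop)
    have h2 : PT fun p : Inst => g p.2 := hg.comp (g := fun p : Inst => p.2) (by fun_prop)
    exact (PT.mk h1 h2).polyTimeOn _
  · exact (encG_iso_iff (by norm_num) (srg16 true) (srg16 false) srg16_not_iso p.1 p.2).symm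

end Run7.h529
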