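import Mathlib

/-!
# Substitution of graphs for the vertices of a graph: the definition
-/

set_option autoImplicit false

namespace Run7.h529

/-- The graph got from the graph `T` by substituting the graph `X e` for every vertex `e`: the
vertices are the pairs `(e, p)`, two vertices `(e, p)` and `(e, q)` are adjacent if `p` and `q` are
adjacent in `X e`, and for `e ≠ f` the vertices `(e, p)` and `(f, q)` are adjacent if `e` and `f`
are adjacent in `T`. -/
def sub {S F : Type} (T : SimpleGraph S) (X : S → SimpleGraph F) : SimpleGraph (S × F) where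
  Adj x y := (x.1 = y.1 ∧ (X x.1).Adj x.2 y.2) ∨ T.Adj x.1 y.1
  symm := ⟨by
    rintro ⟨e, p⟩ ⟨f, q⟩ (⟨h1, h2⟩ | h)
    · simp only at h1 h2
      subst h1
      exact Or.inl ⟨rfl, h2.symm⟩
    · exact Or.inr h.symm⟩
  loopless := ⟨by
    rintro ⟨e, p⟩ (⟨_, h⟩ | h)
    · exact (X e).loopless.irrefl p h
    · exact T.loopless.irrefl e h⟩

end Run7.h529
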