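import Pool.Agent.W185.SRG.Defs
import Pool.Agent.Run7.h529.IsoDefs
import Pool.Agent.Run7.h529.SubDef

/-!
# Compositional tests for isomorphism
-/

set_option autoImplicit false

namespace Run7.h529

/-- A relation between finite graphs. -/
abbrev GraphRel : Type 1 :=
  ∀ {V W : Type} [Fintype V] [Fintype W], SimpleGraph V → SimpleGraph W → Prop

/-- The relation `E` (read: the graphs are not distinguished by the test) is an equivalence
relation which contains isomorphism and is compatible with substitution. -/
structure Compositional (E : GraphRel) : Prop where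
  iso : ∀ (V W : Type) [Fintype V] [Fintype W] (G : SimpleGraph V) (H : SimpleGraph W),
    Nonempty (G ≃g H) → E G H
  symm : ∀ (V W : Type) [Fintype V] [Fintype W] (G : SimpleGraph V) (H : SimpleGraph W),
    E G H → E H G
  trans : ∀ (U V W : Type) [Fintype U] [Fintype V] [Fintype W] (G : SimpleGraph U)
    (H : SimpleGraph V) (K : SimpleGraph W), E G H → E H K → E G K
  sub : ∀ (S F : Type) [Fintype S] [Fintype F] (T : SimpleGraph S) (X Y : S → SimpleGraph F),
    (∀ e, E (X e) (Y e)) → E (Run7.h529.sub T X) (Run7.h529.sub T Y)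

/-- Two graphs are not distinguished by the numbers of homomorphisms from the graphs in `𝓕`. -/
def HomEquiv (𝓕 : ∀ n : ℕ, Set (SimpleGraph (Fin n))) : GraphRel := fun G H =>
  ∀ (n : ℕ) (K : SimpleGraph (Fin n)), K ∈ 𝓕 n → Nat.card (K →g G) = Nat.card (K →g H)

/-- The class `𝓕` is closed under induced subgraphs (and isomorphism). -/
def Hereditary (𝓕 : ∀ n : ℕ, Set (SimpleGraph (Fin n))) : Prop :=
  ∀ (m n : ℕ) (K : SimpleGraph (Fin n)) (ι : Fin m ↪ Fin n), K ∈ 𝓕 n → K.comap ι ∈ 𝓕 m

end Run7.h529
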