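import Pool.Agent.Run7.h529.TestDefs
import Pool.Agent.Run7.h529.Sub

/-!
# The Weisfeiler-Leman method is compositional
-/

set_option autoImplicit false

namespace Run7.h529

open Pool.Agent.W185.SRG

theorem exists_perm_of_map_eq {F K : Type} [Fintype F] {F' : Type} [Fintype F'] (f : F → K)
    (g : F' → K)
    (h : (Finset.univ : Finset F).val.map f = (Finset.univ : Finset F').val.map g) :
    ∃ ρ : F ≃ F', ∀ r, g (ρ r) = f r := by
  classical
  have e : ∀ k, Nonempty ({r // f r = k} ≃ {r // g r = k}) := by
    intro k
    rw [← Fintype.card_eq, Fintype.card_subtype, Fintype.card_subtype]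
    have := congrArg (Multiset.count k) h
    rw [Multiset.count_map, Multiset.count_map] at this
    rw [Finset.card_def, Finset.card_def, Finset.filter_val, Finset.filter_val]
    simpa [eq_comm] using this
  exact ⟨Equiv.ofFiberEquiv fun k => (e k).some, fun r => Equiv.ofFiberEquiv_map _ r⟩

theorem wl_succ_eq {V W : Type} [Fintype V] [Fintype W] {G : SimpleGraph V} {H : SimpleGraph W}
    {k t : ℕ} {u : Fin k → V} {v : Fin k → W} (h : wl G k (t + 1) u = wl H k (t + 1) v) :
    wl G k t u = wl H k t v := congrArg Prod.fst h

theorem wl_mono {V W : Type} [Fintype V] [Fintype W] {G : SimpleGraph V} {H : SimpleGraph W}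
    {k : ℕ} {u : Fin k → V} {v : Fin k → W} {t t' : ℕ} (htt : t ≤ t')
    (h : wl G k t' u = wl H k t' v) : wl G k t u = wl H k t v := by
  induction t', htt using Nat.le_induction with
  | base => exact h
  | succ n _ ih => exact ih (wl_succ_eq h)

/-- one bijection for all rounds -/
theorem wl_step {V W : Type} [Fintype V] [Fintype W] {G : SimpleGraph V} {H : SimpleGraph W}
    {k : ℕ} {u : Fin k → V} {v : Fin k → W} (h : ∀ t, wl G k t u = wl H k t v) :
    ∃ β : V ≃ W, ∀ (x : V) (i : Fin k) (t : ℕ),
      wl G k t (Function.update u i x) = wl H k t (Function.update v i (β x)) := by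
  classical
  have h1 : ∀ t, ∃ β : V ≃ W, ∀ x, (fun i => wl H k t (Function.update v i (β x))) =
      fun i => wl G k t (Function.update u i x) := by
    intro t
    have h2 := congrArg Prod.snd (h (t + 1))
    exact exists_perm_of_map_eq _ _ h2
  choose β hβ using h1
  obtain ⟨b, hb⟩ := Finite.exists_infinite_fiber β
  refine ⟨b, fun x i t => ?_⟩
  have hb' : (β ⁻¹' {b}).Infinite := Set.infinite_coe_iff.1 hb
  obtain ⟨t', ht', htt⟩ := hb'.exists_gt t
  have h3 : β t' = b := ht'
  have h4 := congrFun (hβ t' x) i
  rw [h3] at h4
  exact wl_mono htt.le h4.symm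

/-- isomorphisms preserve the colours -/
theorem wl_iso {V W : Type} [Fintype V] [Fintype W] {G : SimpleGraph V} {H : SimpleGraph W}
    (φ : G ≃g H) (k t : ℕ) : ∀ u : Fin k → V, wl G k t u = wl H k t fun i => φ (u i) := by
  classical
  induction t with
  | zero =>
    intro u
    show isoType G k u = isoType H k fun i => φ (u i)
    unfold isoType
    simp only [φ.injective.eq_iff, φ.map_adj_iff]
  | succ t ih =>
    intro u
    show (wl G k t u, _) = (wl H k t _, _)
    rw [ih u]
    congr 1
    have h1 : (Finset.univ : Finset W).val = (Finset.univ : Finset V).val.map φ :=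
      (Multiset.map_univ_val_equiv φ.toEquiv).symm
    rw [h1, Multiset.map_map]
    refine Multiset.map_congr rfl fun x _ => ?_
    funext i
    rw [ih]
    congr 1
    funext j
    show φ (Function.update u i x j) = Function.update (fun i => φ (u i)) i (φ x) j
    by_cases hj : j = i
    · subst hj; simp
    · simp [hj]

theorem wlEquivalent_of_iso {V W : Type} [Fintype V] [Fintype W] {G : SimpleGraph V}
    {H : SimpleGraph W} (k : ℕ) (h : Nonempty (G ≃g H)) : WLEquivalent k G H := by
  obtain ⟨φ⟩ := h
  exact ⟨Equiv.arrowCongr (Equiv.refl _) φ.toEquiv, fun t u => wl_iso φ k t u⟩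

/-- if one tuple of the one graph has the colours of one tuple of the other then the graphs are
equivalent -/
theorem wlEquivalent_of_tuple {V W : Type} [Fintype V] [Fintype W] {G : SimpleGraph V}
    {H : SimpleGraph W} {k : ℕ} {u : Fin k → V} {v : Fin k → W}
    (h : ∀ t, wl G k t u = wl H k t v) : WLEquivalent k G H := by
  classical
  have key : ∀ m ≤ k, ∃ ψ : (Fin m → V) ≃ (Fin m → W), ∀ (x : Fin m → V) (t : ℕ),
      wl G k t (fun i => if h : i.val < m then x ⟨i.val, h⟩ else u i) =
        wl H k t (fun i => if h : i.val < m then ψ x ⟨i.val, h⟩ else v i) := by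
    intro m
    induction m with
    | zero =>
      intro _
      exact ⟨Equiv.ofUnique _ _, fun x t => by simpa using h t⟩
    | succ m ih =>
      intro hm
      obtain ⟨ψ, hψ⟩ := ih (by omega)
      choose β hβ using fun x : Fin m → V => wl_step (hψ x)
      let e1 : (Fin (m + 1) → V) ≃ V × (Fin m → V) := (Fin.snocEquiv fun _ => V).symm
      let e2 : (Fin (m + 1) → W) ≃ W × (Fin m → W) := (Fin.snocEquiv fun _ => W).symm
      let θ : V × (Fin m → V) ≃ W × (Fin m → W) := Equiv.ofBijective
        (fun z => (β z.2 z.1, ψ z.2)) (by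
          constructor
          · rintro ⟨a, x⟩ ⟨b, y⟩ hz
            obtain ⟨h1, h2⟩ := Prod.mk.inj hz
            simp only at h1 h2
            have h3 := ψ.injective h2
            subst h3
            rw [(β x).injective h1]
          · rintro ⟨a, x⟩
            obtain ⟨y, rfl⟩ := ψ.surjective x
            obtain ⟨b, rfl⟩ := (β y).surjective a
            exact ⟨(b, y), rfl⟩)
      refine ⟨e1.trans (θ.trans e2.symm), fun x t => ?_⟩
      have h1 := hβ (Fin.init x) (x (Fin.last m)) ⟨m, by omega⟩ t
      have e3 : (fun i : Fin k => if h : i.val < m + 1 then x ⟨i.val, h⟩ else u i) =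
          Function.update (fun i : Fin k => if h : i.val < m then (Fin.init x) ⟨i.val, h⟩ else u i)
            ⟨m, by omega⟩ (x (Fin.last m)) := by
        funext i
        by_cases hi : i = ⟨m, by omega⟩
        · subst hi
          simp [Fin.last]
        · have hi' : i.val ≠ m := fun h => hi (Fin.ext h)
          rw [Function.update_of_ne hi]
          by_cases h2 : i.val < m
          · have h3 : i.val < m + 1 := by omega
            simp only [h2, h3, dif_pos]
            rfl
          · have h3 : ¬ i.val < m + 1 := by omega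
            simp only [h2, h3, dif_neg, not_false_eq_true]
      have e4 : (fun i : Fin k => if h : i.val < m + 1 then
          (e1.trans (θ.trans e2.symm)) x ⟨i.val, h⟩ else v i) =
          Function.update (fun i : Fin k => if h : i.val < m then
            ψ (Fin.init x) ⟨i.val, h⟩ else v i) ⟨m, by omega⟩
            (β (Fin.init x) (x (Fin.last m))) := by
        have e5 : (e1.trans (θ.trans e2.symm)) x =
            Fin.snoc (α := fun _ => W) (ψ (Fin.init x)) (β (Fin.init x) (x (Fin.last m))) := rfl
        rw [e5]
        funext i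
        by_cases hi : i = ⟨m, by omega⟩
        · subst hi
          simp [Fin.snoc]
        · have hi' : i.val ≠ m := fun h => hi (Fin.ext h)
          rw [Function.update_of_ne hi]
          by_cases h2 : i.val < m
          · have h3 : i.val < m + 1 := by omega
            simp only [h2, h3, dif_pos]
            simp [Fin.snoc, h2]
          · have h3 : ¬ i.val < m + 1 := by omega
            simp only [h2, h3, dif_neg, not_false_eq_true]
      rw [e3, e4]
      exact h1
  obtain ⟨ψ, hψ⟩ := key k le_rfl
  exact ⟨ψ, fun t S => by simpa using hψ S t⟩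

/-- two tuples of substituted graphs are locally equivalent -/
def LocRel {S F : Type} [Fintype F] {k : ℕ} (X Y : S → SimpleGraph F)
    (u v : Fin k → S × F) : Prop :=
  (∀ i, (u i).1 = (v i).1) ∧ ∀ e, ∃ a b : Fin k → F,
    (∀ i, (u i).1 = e → a i = (u i).2 ∧ b i = (v i).2) ∧ ∀ t, wl (X e) k t a = wl (Y e) k t b

theorem isoType_eq {V W : Type} {G : SimpleGraph V} {H : SimpleGraph W} {k : ℕ} {u : Fin k → V}
    {v : Fin k → W} : isoType G k u = isoType H k v ↔
      ∀ i j, (u i = u j ↔ v i = v j) ∧ (G.Adj (u i) (u j) ↔ H.Adj (v i) (v j)) := by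
  constructor
  · intro h i j
    have h1 : (fun i j => u i = u j) = fun i j => v i = v j := congrArg Prod.fst h
    have h2 : (fun i j => G.Adj (u i) (u j)) = fun i j => H.Adj (v i) (v j) :=
      congrArg Prod.snd h
    exact ⟨iff_of_eq (congrFun (congrFun h1 i) j), iff_of_eq (congrFun (congrFun h2 i) j)⟩
  · intro h
    exact Prod.ext (funext fun i => funext fun j => propext (h i j).1)
      (funext fun i => funext fun j => propext (h i j).2)

theorem wl_of_locRel {S F : Type} [Fintype S] [Fintype F] {k : ℕ} (T : SimpleGraph S)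
    (X Y : S → SimpleGraph F) (t : ℕ) : ∀ u v : Fin k → S × F, LocRel X Y u v →
      wl (sub T X) k t u = wl (sub T Y) k t v := by
  classical
  induction t with
  | zero =>
    rintro u v ⟨h1, h2⟩
    show isoType _ k u = isoType _ k v
    rw [isoType_eq]
    intro i j
    have hu : ∀ i, u i = ((u i).1, (u i).2) := fun i => rfl
    have hv : ∀ i, v i = ((u i).1, (v i).2) := fun i => by rw [h1 i]
    by_cases hij : (u i).1 = (u j).1
    · obtain ⟨a, b, hab, hw⟩ := h2 (u i).1
      have h3 := (isoType_eq.1 (show isoType (X (u i).1) k a = isoType (Y (u i).1) k b from hw 0)) i j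
      rw [(hab i rfl).1, (hab i rfl).2, (hab j hij.symm).1, (hab j hij.symm).2] at h3
      constructor
      · rw [hu i, hu j, hv i, hv j, ← hij]
        simp only [Prod.mk.injEq, true_and]
        exact h3.1
      · rw [hu i, hu j, hv i, hv j, ← hij, sub_adj_eq, sub_adj_eq]
        exact h3.2
    · constructor
      · rw [hu i, hu j, hv i, hv j]
        simp only [Prod.mk.injEq, hij, false_and]
      · rw [hu i, hu j, hv i, hv j, sub_adj_ne hij, sub_adj_ne hij]
  | succ t ih =>
    intro u v huv
    show (wl (sub T X) k t u, _) = (wl (sub T Y) k t v, _)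
    rw [ih u v huv]
    congr 1
    obtain ⟨h1, h2⟩ := huv
    choose a b hab hw using h2
    choose β hβ using fun e => wl_step (hw e)
    let θ : S × F ≃ S × F := Equiv.ofBijective (fun z => (z.1, β z.1 z.2)) (by
      constructor
      · rintro ⟨e, p⟩ ⟨f, q⟩ hz
        obtain ⟨h3, h4⟩ := Prod.mk.inj hz
        simp only at h3 h4
        subst h3
        rw [(β e).injective h4]
      · rintro ⟨e, p⟩
        obtain ⟨q, rfl⟩ := (β e).surjective p
        exact ⟨(e, q), rfl⟩)
    conv_rhs => rw [← Multiset.map_univ_val_equiv θ, Multiset.map_map]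
    refine Multiset.map_congr rfl fun z _ => ?_
    funext i
    refine ih _ _ ⟨fun j => ?_, fun e => ?_⟩
    · by_cases hj : j = i
      · subst hj
        rw [Function.update_self, Function.update_self]
        rfl
      · rw [Function.update_of_ne hj, Function.update_of_ne hj]
        exact h1 j
    · by_cases he : z.1 = e
      · subst he
        refine ⟨Function.update (a z.1) i z.2, Function.update (b z.1) i (β z.1 z.2),
          fun j hj => ?_, fun t => hβ z.1 z.2 i t⟩
        by_cases hji : j = i
        · subst hji
          refine ⟨by rw [Function.update_self, Function.update_self], ?_⟩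
          rw [Function.update_self, Function.update_self]
          rfl
        · rw [Function.update_of_ne hji] at hj
          simp only [Function.update_of_ne hji]
          exact hab z.1 j hj
      · refine ⟨a e, b e, fun j hj => ?_, hw e⟩
        by_cases hji : j = i
        · subst hji
          rw [Function.update_self] at hj
          exact absurd hj he
        · rw [Function.update_of_ne hji] at hj
          simp only [Function.update_of_ne hji]
          exact hab e j hj

theorem wlEquivalent_sub {S F : Type} [Fintype S] [Fintype F] (k : ℕ) (T : SimpleGraph S)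
    (X Y : S → SimpleGraph F) (h : ∀ e, WLEquivalent k (X e) (Y e)) :
    WLEquivalent k (sub T X) (sub T Y) := by
  classical
  rcases Nat.eq_zero_or_pos k with hk | hk
  · subst hk
    refine wlEquivalent_of_tuple (u := fun i => i.elim0) (v := fun i => i.elim0) fun t =>
      wl_of_locRel T X Y t _ _ ⟨fun i => i.elim0, fun e => ?_⟩
    obtain ⟨ψ, hψ⟩ := h e
    exact ⟨fun i => i.elim0, ψ (fun i => i.elim0), fun i => i.elim0, fun t => hψ t _⟩
  · by_cases hne : Nonempty (S × F)
    · obtain ⟨⟨e₀, p₀⟩⟩ := hne
      choose ψ hψ using h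
      refine wlEquivalent_of_tuple (u := fun _ => (e₀, p₀))
        (v := fun i => (e₀, ψ e₀ (fun _ => p₀) i)) fun t =>
        wl_of_locRel T X Y t _ _ ⟨fun i => rfl, fun e => ?_⟩
      refine ⟨fun _ => p₀, ψ e (fun _ => p₀), fun i hi => ?_, fun t => hψ e t _⟩
      simp only at hi
      subst hi
      exact ⟨rfl, rfl⟩
    · rw [not_nonempty_iff] at hne
      have : IsEmpty (Fin k → S × F) := ⟨fun u => hne.false (u ⟨0, hk⟩)⟩
      exact ⟨Equiv.refl _, fun t u => (this.false u).elim⟩

theorem wl_compositional (k : ℕ) : Compositional (WLEquivalent k) where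
  iso V W _ _ G H h := wlEquivalent_of_iso k h
  symm V W _ _ G H h := by
    obtain ⟨ψ, hψ⟩ := h
    exact ⟨ψ.symm, fun t u => by rw [hψ t (ψ.symm u), Equiv.apply_symm_apply]⟩
  trans U V W _ _ _ G H K h h' := by
    obtain ⟨ψ, hψ⟩ := h
    obtain ⟨χ, hχ⟩ := h'
    exact ⟨ψ.trans χ, fun t u => (hψ t u).trans (hχ t _)⟩
  sub S F _ _ T X Y h := wlEquivalent_sub k T X Y h

end Run7.h529
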