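import Pool.Agent.Run7.h529.IsoRed
import Pool.Agent.Run7.h529.Enc
import Pool.Agent.Run7.h529.WLSub
import Pool.Agent.Run7.h529.HomSub
import Pool.Agent.Y598.CG.Final

/-!
# Graph isomorphism for graphs that a compositional test does not distinguish
-/

set_option autoImplicit false

namespace Run7.h529

open Pool.Agent.H38.NP Pool.Agent.W185.SRG

theorem graphOf_adjList {m : ℕ} (A : SimpleGraph (Fin m)) [DecidableRel A.Adj] :
    graphOf m (adjList A) = A := by
  ext u v
  rw [graphOf_adj, mem_adjList, mem_adjList]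
  constructor
  · rintro ⟨_, h | h⟩
    · exact h
    · exact h.symm
  · exact fun h => ⟨h.ne, Or.inl h⟩

theorem test_hard_fin (E : GraphRel) (hE : Compositional E) {m : ℕ} (A B : SimpleGraph (Fin m))
    (h : E A B) (hAB : IsEmpty (A ≃g B)) :
    AsHardAsGI fun p => p.1.1 = p.2.1 ∧ E (gr1 p) (gr2 p) := by
  classical
  have hm : 0 < m := by
    rcases Nat.eq_zero_or_pos m with h0 | h0
    · subst h0
      exact (hAB.false ⟨Equiv.refl _, fun {a _} => a.elim0⟩).elim
    · exact h0
  let g := encG m (adjList A) (adjList B)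
  have hg : PT g := PT_encG _ _ _
  let f : Inst → Inst := fun p =>
    if p.1.1 = p.2.1 then (g p.1, g p.2) else ((m, adjList A), (m, adjList B))
  have hrefl : ∀ X : SimpleGraph (Fin m), E X X := fun X => hE.iso _ _ X X ⟨RelIso.refl _⟩
  refine asHard_of f ?_ ?_
  · have h1 : PT fun p : Inst => g p.1 := hg.comp (g := fun p : Inst => p.1) (by fun_prop)
    have h2 : PT fun p : Inst => g p.2 := hg.comp (g := fun p : Inst => p.2) (by fun_prop)
    have h3 : PT f := PT.ite (by fun_prop) (PT.mk h1 h2) (PT.const _)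
    exact h3.polyTimeOn _
  · rintro ⟨⟨n, E1⟩, ⟨n', E2⟩⟩
    by_cases hn : n = n'
    · subst hn
      have hf : f ((n, E1), (n, E2)) = (g (n, E1), g (n, E2)) := if_pos rfl
      rw [hf]
      refine ⟨⟨rfl, ?_⟩, ?_⟩
      · obtain ⟨φ⟩ := encG_iso A B n E1
        obtain ⟨ψ⟩ := encG_iso A B n E2
        have : Fintype (Pr (Fin (n + 5))) := Fintype.ofFinite _
        refine hE.trans _ _ _ _ _ _ (hE.iso _ _ _ (comp A B (padG n E1)) ⟨φ⟩)
          (hE.trans _ _ _ _ _ _ (hE.sub (Pr (Fin (n + 5))) (Fin m) (tri (Fin (n + 5))) _ _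
            fun e => ?_) (hE.iso _ _ (comp A B (padG n E2)) _ ⟨ψ.symm⟩))
        split_ifs
        · exact hrefl _
        · exact h
        · exact hE.symm _ _ _ _ h
        · exact hrefl _
      · exact (encG_iso_iff hm A B hAB (n, E1) (n, E2)).symm
    · have hf : f ((n, E1), (n', E2)) = ((m, adjList A), (m, adjList B)) := if_neg hn
      rw [hf]
      refine ⟨⟨rfl, ?_⟩, ?_⟩
      · show E (graphOf m (adjList A)) (graphOf m (adjList B))
        rw [graphOf_adjList, graphOf_adjList]
        exact h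
      · refine iff_of_false ?_ ?_
        · rintro ⟨φ⟩
          apply hn
          have := Fintype.card_congr φ.toEquiv
          rwa [Fintype.card_fin, Fintype.card_fin] at this
        · rintro ⟨φ⟩
          change graphOf m (adjList A) ≃g graphOf m (adjList B) at φ
          rw [graphOf_adjList, graphOf_adjList] at φ
          exact hAB.false φ

/-- **Graph isomorphism restricted to the pairs of graphs that a compositional incomplete test does
not distinguish.** -/
theorem test_hard (E : GraphRel) (hE : Compositional E)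
    (hne : ∃ (F : Type) (_ : Fintype F) (A B : SimpleGraph F), E A B ∧ IsEmpty (A ≃g B)) :
    AsHardAsGI fun p => p.1.1 = p.2.1 ∧ E (gr1 p) (gr2 p) := by
  classical
  obtain ⟨F, _, A, B, h, hAB⟩ := hne
  let e := Fintype.equivFin F
  have iso : ∀ X : SimpleGraph F, Nonempty (X ≃g X.comap e.symm) := fun X =>
    ⟨{ toEquiv := e, map_rel_iff' := by intro a b; simp }⟩
  obtain ⟨φ⟩ := iso A
  obtain ⟨ψ⟩ := iso B
  refine test_hard_fin E hE (A.comap e.symm) (B.comap e.symm) ?_ ?_
  · exact hE.trans _ _ _ _ _ _ (hE.iso _ _ _ _ ⟨φ.symm⟩)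
      (hE.trans _ _ _ _ _ _ h (hE.iso _ _ _ _ ⟨ψ⟩))
  · exact ⟨fun χ => hAB.false (φ.trans (χ.trans ψ.symm))⟩

theorem wl_blind (k : ℕ) :
    ∃ (F : Type) (_ : Fintype F) (A B : SimpleGraph F), WLEquivalent k A B ∧ IsEmpty (A ≃g B) := by
  obtain ⟨Γ, _, hΓ, S, S', -, -, -, hno, hwl, -⟩ := Pool.Agent.Y598.CG.cg_main (k + 1) (by omega)
  exact ⟨Γ, hΓ, _, _, (hwl k (by omega)).1, hno⟩

end Run7.h529
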