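import Pool.Agent.Run7.h529.Sub

/-!
# The triangular graph: spreadness and its isomorphisms
-/

set_option autoImplicit false

namespace Run7.h529

/-- The two-element subsets of `V`. -/
abbrev Pr (V : Type) : Type := {e : Sym2 V // ¬ e.IsDiag}

/-- The triangular graph: its vertices are the two-element subsets of `V`, two different ones are
adjacent if they intersect. -/
def tri (V : Type) : SimpleGraph (Pr V) where
  Adj e f := e ≠ f ∧ ∃ v, v ∈ e.1 ∧ v ∈ f.1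
  symm := ⟨fun _ _ h => ⟨h.1.symm, h.2.imp fun _ h => h.symm⟩⟩
  loopless := ⟨fun _ h => h.1 rfl⟩

variable {V V' : Type}

/-- the pair `{a, b}` -/
def mkp (a b : V) (h : a ≠ b) : Pr V := ⟨s(a, b), by simpa using h⟩

theorem pr_cases (e : Pr V) : ∃ a b, ∃ h : a ≠ b, e = mkp a b h := by
  obtain ⟨e, he⟩ := e
  induction e with
  | _ a b => exact ⟨a, b, by simpa using he, rfl⟩

theorem mem_mkp {a b x : V} {h : a ≠ b} : x ∈ (mkp a b h).1 ↔ x = a ∨ x = b := by
  simp [mkp]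

theorem pr_eq_of_mem {e f : Pr V} {x y : V} (h : x ≠ y) (h1 : x ∈ e.1) (h2 : y ∈ e.1)
    (h3 : x ∈ f.1) (h4 : y ∈ f.1) : e = f := by
  apply Subtype.ext
  rw [(Sym2.mem_and_mem_iff h).1 ⟨h1, h2⟩, (Sym2.mem_and_mem_iff h).1 ⟨h3, h4⟩]

theorem exists_other [Finite V] (hV : 5 ≤ Nat.card V) (s : Finset V) (hs : s.card ≤ 4) :
    ∃ x, x ∉ s := by
  classical
  by_contra h
  push Not at h
  have h1 : (Set.univ : Set V).ncard ≤ (s : Set V).ncard :=
    Set.ncard_le_ncard (fun x _ => h x) (Set.toFinite _)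
  rw [Set.ncard_univ, Set.ncard_coe_finset] at h1
  omega

theorem tri_adj_mkp {a b c d : V} {h : a ≠ b} {h' : c ≠ d} :
    (tri V).Adj (mkp a b h) (mkp c d h') ↔
      mkp a b h ≠ mkp c d h' ∧ (a = c ∨ a = d ∨ b = c ∨ b = d) := by
  refine and_congr_right fun _ => ?_
  constructor
  · rintro ⟨v, h1, h2⟩
    rw [mem_mkp] at h1 h2
    rcases h1 with rfl | rfl <;> rcases h2 with rfl | rfl <;> simp
  · rintro (rfl | rfl | rfl | rfl)
    · exact ⟨a, mem_mkp.2 (Or.inl rfl), mem_mkp.2 (Or.inl rfl)⟩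
    · exact ⟨a, mem_mkp.2 (Or.inl rfl), mem_mkp.2 (Or.inr rfl)⟩
    · exact ⟨b, mem_mkp.2 (Or.inr rfl), mem_mkp.2 (Or.inl rfl)⟩
    · exact ⟨b, mem_mkp.2 (Or.inr rfl), mem_mkp.2 (Or.inr rfl)⟩

theorem exists_diff {e f : Pr V} (h : e ≠ f) : ∃ x, x ∈ e.1 ∧ x ∉ f.1 := by
  obtain ⟨a, b, hab, rfl⟩ := pr_cases e
  by_contra hc
  push Not at hc
  exact h (pr_eq_of_mem hab (mem_mkp.2 (Or.inl rfl)) (mem_mkp.2 (Or.inr rfl))
    (hc a (mem_mkp.2 (Or.inl rfl))) (hc b (mem_mkp.2 (Or.inr rfl))))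

theorem tri_spread [Finite V] (hV : 5 ≤ Nat.card V) : Spread (tri V) := by
  classical
  intro e f hef
  obtain ⟨b, hb1, hb2⟩ := exists_diff hef
  obtain ⟨c, hc1, hc2⟩ := exists_diff hef.symm
  obtain ⟨a1, a2, ha, rfl⟩ := pr_cases e
  obtain ⟨c1, c2, hc, rfl⟩ := pr_cases f
  obtain ⟨x, hx⟩ := exists_other hV {a1, a2, c1, c2} Finset.card_le_four
  simp only [Finset.mem_insert, Finset.mem_singleton, not_or] at hx
  have hbx : b ≠ x := by
    rintro rfl
    rw [mem_mkp] at hb1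
    tauto
  have hcx : c ≠ x := by
    rintro rfl
    rw [mem_mkp] at hc1
    tauto
  have hxe : x ∉ (mkp a1 a2 ha).1 := by rw [mem_mkp]; tauto
  have hxf : x ∉ (mkp c1 c2 hc).1 := by rw [mem_mkp]; tauto
  have hbc : b ≠ c := fun h => hb2 (h ▸ hc1)
  refine ⟨mkp b x hbx, mkp c x hcx, ?_, ⟨?_, ?_, ?_⟩, ⟨?_, ?_, ?_⟩⟩
  · intro h
    have h1 : b ∈ (mkp c x hcx).1 := h ▸ mem_mkp.2 (Or.inl rfl)
    rw [mem_mkp] at h1
    exact h1.elim hbc hbx
  · intro h
    exact hxe (h ▸ mem_mkp.2 (Or.inr rfl))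
  · intro h
    exact hxf (h ▸ mem_mkp.2 (Or.inr rfl))
  · intro h
    have h1 : (tri V).Adj (mkp a1 a2 ha) (mkp b x hbx) :=
      ⟨fun h => hxe (h ▸ mem_mkp.2 (Or.inr rfl)), b, hb1, mem_mkp.2 (Or.inl rfl)⟩
    obtain ⟨_, v, hv1, hv2⟩ := h.1 h1
    rw [mem_mkp (a := b)] at hv2
    rcases hv2 with rfl | rfl
    · exact hb2 hv1
    · exact hxf hv1
  · intro h
    exact hxe (h ▸ mem_mkp.2 (Or.inr rfl))
  · intro h
    exact hxf (h ▸ mem_mkp.2 (Or.inr rfl))
  · intro h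
    have h1 : (tri V).Adj (mkp c1 c2 hc) (mkp c x hcx) :=
      ⟨fun h => hxf (h ▸ mem_mkp.2 (Or.inr rfl)), c, hc1, mem_mkp.2 (Or.inl rfl)⟩
    obtain ⟨_, v, hv1, hv2⟩ := h.2 h1
    rw [mem_mkp (a := c)] at hv2
    rcases hv2 with rfl | rfl
    · exact hc2 hv1
    · exact hxe hv1

/-- Three pairwise adjacent pairs have a common element if and only if some pair is adjacent to all
of them. -/
theorem star_iff [Finite V] (hV : 5 ≤ Nat.card V) {e f g : Pr V} (hef : (tri V).Adj e f)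
    (heg : (tri V).Adj e g) (hfg : (tri V).Adj f g) :
    (∃ v, v ∈ e.1 ∧ v ∈ f.1 ∧ v ∈ g.1) ↔
      ∃ h, (tri V).Adj h e ∧ (tri V).Adj h f ∧ (tri V).Adj h g := by
  classical
  constructor
  · rintro ⟨v, hve, hvf, hvg⟩
    have key : ∀ e : Pr V, v ∈ e.1 → ∃ a, a ≠ v ∧ ∀ x, x ∈ e.1 → x = v ∨ x = a := by
      intro e he
      obtain ⟨a, b, hab, rfl⟩ := pr_cases e
      rw [mem_mkp] at he
      rcases he with rfl | rfl
      · exact ⟨b, hab.symm, fun x hx => mem_mkp.1 hx⟩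
      · exact ⟨a, hab, fun x hx => (mem_mkp.1 hx).symm⟩
    obtain ⟨a, _, ha2⟩ := key e hve
    obtain ⟨b, _, hb2⟩ := key f hvf
    obtain ⟨c, _, hc2⟩ := key g hvg
    obtain ⟨x, hx⟩ := exists_other hV {v, a, b, c} Finset.card_le_four
    simp only [Finset.mem_insert, Finset.mem_singleton, not_or] at hx
    refine ⟨mkp v x (Ne.symm hx.1), ⟨?_, v, mem_mkp.2 (Or.inl rfl), hve⟩,
      ⟨?_, v, mem_mkp.2 (Or.inl rfl), hvf⟩, ⟨?_, v, mem_mkp.2 (Or.inl rfl), hvg⟩⟩
    · intro h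
      have := ha2 x (h ▸ mem_mkp.2 (Or.inr rfl))
      tauto
    · intro h
      have := hb2 x (h ▸ mem_mkp.2 (Or.inr rfl))
      tauto
    · intro h
      have := hc2 x (h ▸ mem_mkp.2 (Or.inr rfl))
      tauto
  · rintro ⟨h, ⟨h1, x, hx1, hx2⟩, ⟨h2, y, hy1, hy2⟩, ⟨h3, z, hz1, hz2⟩⟩
    by_cases hxy : x = y
    · subst hxy
      by_cases hxz : x = z
      · subst hxz
        exact ⟨x, hx2, hy2, hz2⟩
      · obtain ⟨_, u, hu1, hu2⟩ := heg
        obtain ⟨_, w, hw1, hw2⟩ := hfg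
        by_cases hux : u = x
        · subst hux; exact ⟨u, hx2, hy2, hu2⟩
        by_cases hwx : w = x
        · subst hwx; exact ⟨w, hx2, hy2, hw2⟩
        by_cases huw : u = w
        · subst huw
          exact absurd (pr_eq_of_mem (Ne.symm hux) hx2 hu1 hy2 hw1) hef.1
        by_cases huz : u = z
        · subst huz
          exact absurd (pr_eq_of_mem hxz hx1 hz1 hx2 hu1) h1
        by_cases hwz : w = z
        · subst hwz
          exact absurd (pr_eq_of_mem hxz hx1 hz1 hy2 hw1) h2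
        exfalso
        obtain ⟨c, d, hcd, rfl⟩ := pr_cases g
        rw [mem_mkp] at hu2 hw2 hz2
        rcases hu2 with rfl | rfl <;> rcases hw2 with rfl | rfl <;> rcases hz2 with rfl | rfl <;>
          simp_all
    · by_cases hxz : x = z
      · subst hxz
        -- y ≠ x, h = {x, y}
        obtain ⟨_, u, hu1, hu2⟩ := hef
        obtain ⟨_, w, hw1, hw2⟩ := hfg
        by_cases hux : u = x
        · subst hux; exact ⟨u, hx2, hu2, hz2⟩
        by_cases hwx : w = x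
        · subst hwx; exact ⟨w, hx2, hw1, hz2⟩
        by_cases huw : u = w
        · subst huw
          exact absurd (pr_eq_of_mem (Ne.symm hux) hx2 hu1 hz2 hw2) heg.1
        by_cases huy : u = y
        · subst huy
          exact absurd (pr_eq_of_mem hxy hx1 hy1 hx2 hu1) h1
        by_cases hwy : w = y
        · subst hwy
          exact absurd (pr_eq_of_mem hxy hx1 hy1 hz2 hw2) h3
        exfalso
        obtain ⟨c, d, hcd, rfl⟩ := pr_cases f
        rw [mem_mkp] at hu2 hw1 hy2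
        rcases hu2 with rfl | rfl <;> rcases hw1 with rfl | rfl <;> rcases hy2 with rfl | rfl <;>
          simp_all
      · -- z ≠ x; h = {x, y} or z = y
        have hzy : z = y := by
          obtain ⟨c, d, hcd, rfl⟩ := pr_cases h
          rw [mem_mkp] at hx1 hy1 hz1
          rcases hx1 with rfl | rfl <;> rcases hy1 with rfl | rfl <;>
            rcases hz1 with rfl | rfl <;> simp_all
        subst hzy
        obtain ⟨_, u, hu1, hu2⟩ := hef
        obtain ⟨_, w, hw1, hw2⟩ := heg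
        by_cases huz : u = z
        · subst huz; exact ⟨u, hu1, hy2, hz2⟩
        by_cases hwz : w = z
        · subst hwz; exact ⟨w, hw1, hy2, hz2⟩
        by_cases huw : u = w
        · subst huw
          exact absurd (pr_eq_of_mem (Ne.symm huz) hy2 hu2 hz2 hw2) hfg.1
        by_cases hux : u = x
        · subst hux
          exact absurd (pr_eq_of_mem hxy hx1 hy1 hu2 hy2) h2
        by_cases hwx : w = x
        · subst hwx
          exact absurd (pr_eq_of_mem hxy hx1 hy1 hw2 hz2) h3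
        exfalso
        obtain ⟨c, d, hcd, rfl⟩ := pr_cases e
        rw [mem_mkp] at hu1 hw1 hx2
        rcases hu1 with rfl | rfl <;> rcases hw1 with rfl | rfl <;> rcases hx2 with rfl | rfl <;>
          simp_all

theorem common_unique {e f : Pr V} (h : e ≠ f) {x y : V} (h1 : x ∈ e.1) (h2 : y ∈ e.1)
    (h3 : x ∈ f.1) (h4 : y ∈ f.1) : x = y := by
  by_contra hxy
  exact h (pr_eq_of_mem hxy h1 h2 h3 h4)

/-- An isomorphism of triangular graphs maps the pairs containing a point to the pairs containing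
some point. -/
theorem point_map [Finite V] [Finite V'] (hV : 5 ≤ Nat.card V) (hV' : 5 ≤ Nat.card V')
    (ψ : tri V ≃g tri V') (a : V) : ∃ p, ∀ e : Pr V, a ∈ e.1 → p ∈ (ψ e).1 := by
  classical
  obtain ⟨b, hb⟩ := exists_other hV {a} (by simp)
  obtain ⟨c, hc⟩ := exists_other hV {a, b} (Finset.card_le_two.trans (by norm_num))
  simp only [Finset.mem_insert, Finset.mem_singleton, not_or] at hb hc
  have hab : a ≠ b := fun h => hb h.symm
  have hac : a ≠ c := fun h => hc.1 h.symm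
  have hne : mkp a b hab ≠ mkp a c hac := by
    intro h
    have : b ∈ (mkp a c hac).1 := h ▸ mem_mkp.2 (Or.inr rfl)
    rw [mem_mkp] at this
    rcases this with h1 | h1
    · exact hab h1.symm
    · exact hc.2 h1.symm
  have h0 : (tri V).Adj (mkp a b hab) (mkp a c hac) :=
    ⟨hne, a, mem_mkp.2 (Or.inl rfl), mem_mkp.2 (Or.inl rfl)⟩
  have h0' := ψ.map_adj_iff.2 h0
  obtain ⟨hne', p, hp1, hp2⟩ := id h0'
  refine ⟨p, fun g hg => ?_⟩
  by_cases h1 : g = mkp a b hab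
  · rw [h1]; exact hp1
  by_cases h2 : g = mkp a c hac
  · rw [h2]; exact hp2
  have h3 : (tri V).Adj (mkp a b hab) g := ⟨Ne.symm h1, a, mem_mkp.2 (Or.inl rfl), hg⟩
  have h4 : (tri V).Adj (mkp a c hac) g := ⟨Ne.symm h2, a, mem_mkp.2 (Or.inl rfl), hg⟩
  obtain ⟨k, hk1, hk2, hk3⟩ := (star_iff hV h0 h3 h4).1
    ⟨a, mem_mkp.2 (Or.inl rfl), mem_mkp.2 (Or.inl rfl), hg⟩
  obtain ⟨q, hq1, hq2, hq3⟩ := (star_iff hV' h0' (ψ.map_adj_iff.2 h3) (ψ.map_adj_iff.2 h4)).2
    ⟨ψ k, ψ.map_adj_iff.2 hk1, ψ.map_adj_iff.2 hk2, ψ.map_adj_iff.2 hk3⟩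
  rw [common_unique hne' hp1 hq1 hp2 hq2]
  exact hq3

/-- Isomorphisms of triangular graphs are induced by bijections of the ground sets. -/
theorem tri_iso [Finite V] [Finite V'] (hV : 5 ≤ Nat.card V) (hV' : 5 ≤ Nat.card V')
    (ψ : tri V ≃g tri V') : ∃ σ : V ≃ V', ∀ a b (h : a ≠ b),
      ψ (mkp a b h) = mkp (σ a) (σ b) (fun h' => h (σ.injective h')) := by
  classical
  choose σ hσ using point_map hV hV' ψ
  choose τ hτ using point_map hV' hV ψ.symm
  have key : ∀ {W W' : Type} [Finite W] [Finite W'] (_ : 5 ≤ Nat.card W) (ψ : tri W ≃g tri W')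
      (σ : W → W') (τ : W' → W) (_ : ∀ a, ∀ e : Pr W, a ∈ e.1 → σ a ∈ (ψ e).1)
      (_ : ∀ a, ∀ e : Pr W', a ∈ e.1 → τ a ∈ (ψ.symm e).1), ∀ a, τ (σ a) = a := by
    intro W W' _ _ hW ψ σ τ hσ hτ a
    obtain ⟨b, hb⟩ := exists_other hW {a} (by simp)
    obtain ⟨c, hc⟩ := exists_other hW {a, b} (Finset.card_le_two.trans (by norm_num))
    simp only [Finset.mem_insert, Finset.mem_singleton, not_or] at hb hc
    have hab : a ≠ b := fun h => hb h.symm
    have hac : a ≠ c := fun h => hc.1 h.symm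
    have h1 : ∀ e : Pr W, a ∈ e.1 → τ (σ a) ∈ e.1 := by
      intro e he
      have := hτ _ _ (hσ a e he)
      simpa using this
    have h2 := h1 (mkp a b hab) (mem_mkp.2 (Or.inl rfl))
    have h3 := h1 (mkp a c hac) (mem_mkp.2 (Or.inl rfl))
    rw [mem_mkp] at h2 h3
    rcases h2 with h2 | h2
    · exact h2
    · rcases h3 with h3 | h3
      · exact h3
      · exact absurd (h3.symm.trans h2) hc.2
  have hl := key hV ψ σ τ hσ hτ
  have hr := key hV' ψ.symm τ σ hτ (by simpa using hσ)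
  refine ⟨⟨σ, τ, hl, hr⟩, fun a b h => ?_⟩
  have hne : σ a ≠ σ b := fun h' => h (by rw [← hl a, ← hl b, h'])
  exact pr_eq_of_mem hne (hσ a _ (mem_mkp.2 (Or.inl rfl))) (hσ b _ (mem_mkp.2 (Or.inr rfl)))
    (mem_mkp.2 (Or.inl rfl)) (mem_mkp.2 (Or.inr rfl))

/-- A bijection induces an isomorphism of triangular graphs. -/
theorem triMap (σ : V ≃ V') : ∃ ψ : tri V ≃g tri V', ∀ e : Pr V, (ψ e).1 = e.1.map σ := by
  let θ : Pr V ≃ Pr V' := Equiv.ofBijective
    (fun e => ⟨e.1.map σ, fun h => e.2 ((Sym2.isDiag_map σ.injective).1 h)⟩) (by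
      constructor
      · intro e f h
        exact Subtype.ext (Sym2.map.injective σ.injective (congrArg Subtype.val h))
      · intro e
        refine ⟨⟨e.1.map σ.symm, fun h => e.2 ((Sym2.isDiag_map σ.symm.injective).1 h)⟩,
          Subtype.ext ?_⟩
        show (e.1.map σ.symm).map σ = e.1
        rw [Sym2.map_map]
        simp)
  refine ⟨⟨θ, ?_⟩, fun e => rfl⟩
  intro e f
  show (θ e ≠ θ f ∧ ∃ v, v ∈ e.1.map σ ∧ v ∈ f.1.map σ) ↔ (e ≠ f ∧ ∃ v, v ∈ e.1 ∧ v ∈ f.1)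
  refine and_congr θ.injective.ne_iff ?_
  simp only [Sym2.mem_map]
  constructor
  · rintro ⟨v, ⟨a, ha, rfl⟩, ⟨b, hb, h⟩⟩
    exact ⟨a, ha, σ.injective h ▸ hb⟩
  · rintro ⟨v, h1, h2⟩
    exact ⟨σ v, ⟨v, h1, rfl⟩, ⟨v, h2, rfl⟩⟩

end Run7.h529
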